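import Mathlib

set_option autoImplicit false

/-!
# Bond percolation on Galton-Watson trees: definitions

Vertices are words of natural numbers.  The root is the empty word, the children of the word `u`
are the words `i :: u` with `i` smaller than the number of children of `u`.  The edge between the
vertex `i :: u` and its parent `u` is labelled by the word `i :: u`.
(The definitions are those of `X136/GT/Defs` and `X136/GS/Defs` of the library.)
-/

namespace Pool.Agent.H99.GQ

open MeasureTheory ProbabilityTheory

/-- An environment: `Z u` is the number of children of the word `u`. -/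
abbrev Env : Type := List ℕ → ℕ

/-- The word `u` is a vertex of the tree given by `Z`. -/
def InTree (Z : Env) : List ℕ → Prop
  | [] => True
  | i :: u => InTree Z u ∧ i < Z u

/-- The Galton-Watson law with offspring distribution `ν`: the numbers of children of all words are
independent with law `ν`. -/
noncomputable def GW (ν : PMF ℕ) : Measure Env :=
  Measure.infinitePi fun _ : List ℕ => ν.toMeasure

/-- The law under which every word is `true` with probability `p`, independently. -/
noncomputable def bern (p : unitInterval) : Measure (List ℕ → Bool) :=
  Measure.infinitePi fun _ : List ℕ => bernoulliMeasure true false p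

/-- `u` is a vertex of the tree given by `Z` and all edges on the path from `u` to the root are
open, where the edge between `i :: u` and `u` is open when `c (i :: u) = true`; in other words `u`
belongs to the open cluster of the root. -/
def OpenTo (Z : Env) (c : List ℕ → Bool) : List ℕ → Prop
  | [] => True
  | i :: u => OpenTo Z c u ∧ i < Z u ∧ c (i :: u) = true

/-- The quenched survival function at `p ∈ [0,1]`: the probability, for Bernoulli(`p`) bond
percolation on the tree given by `Z`, that the open cluster of the root is infinite. -/
noncomputable def gq (Z : Env) (p : unitInterval) : ENNReal :=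
  bern p {c | {u | OpenTo Z c u}.Infinite}

/-- The quenched survival function for `p ∈ [0,1]` (extended by constants to the real line). -/
noncomputable def gr (Z : Env) (p : ℝ) : ℝ := (gq Z (Set.projIcc 0 1 zero_le_one p)).toReal

/-- `f` has an order-`k` expansion at `a^+`. -/
def HasExpansion (f : ℝ → ℝ) (a : ℝ) (k : ℕ) : Prop :=
  ∃ c : ℕ → ℝ, (fun ε : ℝ => f (a + ε) - ∑ j ∈ Finset.range (k + 1), c j * ε ^ j)
    =o[nhdsWithin 0 (Set.Ioi 0)] fun ε : ℝ => ε ^ k

/-- `f` is of class `C^k` at `a^+`. -/
def IsClassC (f : ℝ → ℝ) (a : ℝ) (k : ℕ) : Prop :=
  ∃ δ : ℝ, 0 < δ ∧ ContDiffOn ℝ k f (Set.Ico a (a + δ))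

end Pool.Agent.H99.GQ
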