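import Mathlib

set_option autoImplicit false

/-!
# Second divided differences of a function of class `C²`

(from the library file `X136/GS/Diff`)
-/

namespace Pool.Agent.H99.GQ

open Filter Topology

theorem divided_bound {f : ℝ → ℝ} {a δ : ℝ} (hδ : 0 < δ)
    (hf : ContDiffOn ℝ 2 f (Set.Ico a (a + δ))) :
    ∃ M : ℝ, 0 ≤ M ∧ ∀ x y z, a ≤ x → x < y → y < z → z ≤ a + δ / 2 →
      (f z - f y) / (z - y) - (f y - f x) / (y - x) ≤ M * (z - x) := by
  set S := Set.Ico a (a + δ) with hS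
  have hU : UniqueDiffOn ℝ S := uniqueDiffOn_Ico a (a + δ)
  set f1 := derivWithin f S with hf1
  have hf1c : ContDiffOn ℝ 1 f1 S := hf.derivWithin hU (by norm_num)
  set f2 := derivWithin f1 S with hf2
  have hf2c : ContinuousOn f2 S := hf1c.continuousOn_derivWithin hU (by norm_num)
  have hsub : Set.Icc a (a + δ / 2) ⊆ S := fun x hx => ⟨hx.1, by linarith [hx.2]⟩
  obtain ⟨M, hM⟩ := isCompact_Icc.exists_bound_of_continuousOn (hf2c.mono hsub)
  have hM0 : 0 ≤ M := (norm_nonneg _).trans (hM a ⟨le_rfl, by linarith⟩)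
  have hint : ∀ c ∈ Set.Ioo a (a + δ), S ∈ 𝓝 c := fun c hc => Ico_mem_nhds hc.1 hc.2
  have hd1 : ∀ c ∈ Set.Ioo a (a + δ), HasDerivAt f (f1 c) c := fun c hc =>
    ((hf.differentiableOn (by norm_num) c ⟨hc.1.le, hc.2⟩).hasDerivWithinAt).hasDerivAt (hint c hc)
  have hd2 : ∀ c ∈ Set.Ioo a (a + δ), HasDerivAt f1 (f2 c) c := fun c hc =>
    ((hf1c.differentiableOn (by norm_num) c ⟨hc.1.le, hc.2⟩).hasDerivWithinAt).hasDerivAt
      (hint c hc)
  refine ⟨M, hM0, fun x y z hx hxy hyz hz => ?_⟩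
  obtain ⟨c, hc, hce⟩ := exists_hasDerivAt_eq_slope f f1 hxy
    (hf.continuousOn.mono fun t ht => ⟨hx.trans ht.1, by linarith [ht.2]⟩)
    (fun t ht => hd1 t ⟨lt_of_le_of_lt hx ht.1, by linarith [ht.2]⟩)
  obtain ⟨d, hd, hde⟩ := exists_hasDerivAt_eq_slope f f1 hyz
    (hf.continuousOn.mono fun t ht => ⟨by linarith [ht.1], by linarith [ht.2]⟩)
    (fun t ht => hd1 t ⟨by linarith [ht.1], by linarith [ht.2]⟩)
  have hcd : c < d := hc.2.trans hd.1
  obtain ⟨e, he, hee⟩ := exists_hasDerivAt_eq_slope f1 f2 hcd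
    (hf1c.continuousOn.mono fun t ht => ⟨by linarith [ht.1, hc.1], by linarith [ht.2, hd.2]⟩)
    (fun t ht => hd2 t ⟨by linarith [ht.1, hc.1], by linarith [ht.2, hd.2]⟩)
  rw [← hce, ← hde]
  have h1 : f1 d - f1 c = f2 e * (d - c) := by
    rw [hee, div_mul_cancel₀]
    linarith
  have h2 : f2 e ≤ M := (le_abs_self _).trans (hM e ⟨by linarith [he.1, hc.1],
    by linarith [he.2, hd.2]⟩)
  rw [h1]
  have h3 : 0 ≤ d - c := by linarith
  have h4 : d - c ≤ z - x := by linarith [hd.2, hc.1]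
  calc f2 e * (d - c) ≤ M * (d - c) := by gcongr
    _ ≤ M * (z - x) := by gcongr

end Pool.Agent.H99.GQ
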