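import Pool.Agent.H99.GQ.Scale
import Pool.Agent.H99.GQ.Diff

set_option autoImplicit false

/-!
# Almost sure statements
-/

namespace Pool.Agent.H99.GQ

open MeasureTheory ProbabilityTheory Filter Topology

theorem bc {Ω : Type*} [MeasurableSpace Ω] (P : Measure Ω) [IsProbabilityMeasure P]
    (A : ℕ → Set Ω) (u : ℕ → ℝ) (hu : Summable u) (n0 : ℕ)
    (hA : ∀ n, n0 ≤ n → P.real (A n) ≤ u n) : ∀ᵐ x ∂P, ∀ᶠ n in atTop, x ∉ A n := by
  have hu' : Summable fun n => u (n + n0) := (summable_nat_add_iff n0).2 hu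
  have h1 : (∑' n, P (A (n + n0))) ≠ ⊤ := by
    have h2 : ∀ n, P (A (n + n0)) ≤ ENNReal.ofReal (u (n + n0)) := by
      intro n
      rw [← ofReal_measureReal]
      exact ENNReal.ofReal_le_ofReal (hA _ (by omega))
    refine ne_top_of_le_ne_top ?_ (ENNReal.tsum_le_tsum h2)
    rw [← ENNReal.ofReal_tsum_of_nonneg (fun n => measureReal_nonneg.trans (hA _ (by omega))) hu']
    exact ENNReal.ofReal_ne_top
  filter_upwards [ae_eventually_notMem h1] with x hx
  rw [eventually_atTop] at hx ⊢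
  obtain ⟨m, hm⟩ := hx
  refine ⟨m + n0, fun n hn => ?_⟩
  have := hm (n - n0) (by omega)
  rwa [Nat.sub_add_cancel (by omega)] at this

theorem summable_inv_NN : Summable fun j => 1 / NN j := by
  have h1 : Summable fun j : ℕ => ((1 : ℝ) / 8) ^ j :=
    summable_geometric_of_lt_one (by norm_num) (by norm_num)
  refine h1.of_nonneg_of_le (fun j => by have := NN_pos j; positivity) fun j => ?_
  rw [div_pow, one_pow]
  refine one_div_le_one_div_of_le (by positivity) ?_
  unfold NN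
  exact_mod_cast eight_pow_le j

/-- almost surely every vertex has at least two children -/
theorem ae_two : ∀ᵐ Z ∂GW lac, ∀ u, 2 ≤ Z u := by
  rw [ae_all_iff]
  intro u
  have h1 : lac.toMeasure {k | k < 2} = 0 := by
    rw [PMF.toMeasure_apply_eq_zero_iff _ MeasurableSet.of_discrete]
    rw [Set.disjoint_left]
    intro k hk hk2
    exact (PMF.mem_support_iff _ _).1 hk (lac_small hk2)
  have h2 := (measurePreserving_eval_infinitePi (fun _ : List ℕ => lac.toMeasure) u).measure_preimage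
    (s := {k : ℕ | k < 2}) MeasurableSet.of_discrete.nullMeasurableSet
  rw [h1] at h2
  show (GW lac) {Z | ¬ 2 ≤ Z u} = 0
  refine measure_mono_null (fun Z hZ => ?_) h2
  show Z u < 2
  have : ¬ 2 ≤ Z u := hZ
  omega

/-- the upper parameter -/
noncomputable def pp (j : ℕ) : ℝ := HH (sp j)

/-- the lower parameter -/
noncomputable def pm (j : ℕ) : ℝ := HH (sm j)

theorem ae_upper : ∀ᵐ Z ∂GW lac, ∀ᶠ j in atTop, gr Z (pm j) < 3 / NN j ^ 20 := by
  have h1 := bc (GW lac) (fun j => {Z | 3 / NN j ^ 20 ≤ gr Z (pm j)}) (fun j => 1 / NN j)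
    summable_inv_NN 3 (fun j hj => by
      set p : unitInterval := ⟨pm j, HH_mem hj (sm_pos j) sm_lt_sp.le⟩ with hp
      obtain ⟨h2, h3, h4, h5, h6⟩ := HH_bounds hj (sm_pos j) sm_lt_sp.le
      have ha0 : 0 < ga lac p := lt_of_lt_of_le (by have := sm_pos j; positivity) h5
      refine le_trans (measureReal_mono ?_) (mark lac p 0 (NN_pos j) ha0)
      intro Z hZ
      have hZ' : 3 / NN j ^ 20 ≤ gr Z (pm j) := hZ
      have e : gr Z (pm j) = gx p Z := gr_eq Z p
      show NN j * (2 ^ 0 * ga lac p) ≤ gx p Z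
      rw [← e]
      refine le_trans ?_ hZ'
      rw [pow_zero, one_mul]
      have h7 : ga lac p ≤ 3 * sm j := h6
      have h8 := NN_pos j
      calc NN j * ga lac p ≤ NN j * (3 * sm j) := by gcongr
        _ = 3 / NN j ^ 20 := by unfold sm; field_simp)
  filter_upwards [h1] with Z hZ
  filter_upwards [hZ] with j hj
  have : ¬ 3 / NN j ^ 20 ≤ gr Z (pm j) := hj
  exact not_le.1 this

theorem ae_lower : ∀ᵐ Z ∂GW lac, ∀ᶠ j in atTop, 1 / (2 * NN j ^ 14) ≤ gr Z (pp j) := by
  classical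
  have hpar : ∀ j, 3 ≤ j → pp j ∈ Set.Icc (0 : ℝ) 1 := fun j hj => HH_mem hj (sp_pos j) le_rfl
  have key : ∀ j, 3 ≤ j → ∀ p : unitInterval, (p : ℝ) = pp j →
      (GW lac).real {Z | SS p (rr j) Z ≤ 2 ^ rr j * ga lac p / 2} ≤ 8 * (1 / NN j) ∧
      (GW lac).real {Z | NN j * (2 ^ rr j * ga lac p) ≤ SS p (rr j) Z} ≤ 1 / NN j := by
    intro j hj p hp
    have hp' : (p : ℝ) = HH (sp j) := hp
    obtain ⟨h2, h3, h4, h5, h6⟩ := HH_bounds hj (sp_pos j) le_rfl
    rw [← hp'] at h5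
    have ha0 : 0 < ga lac p := lt_of_lt_of_le (by have := sp_pos j; positivity) h5
    have hN := NN_pos j
    refine ⟨?_, mark lac p (rr j) hN ha0⟩
    refine (cheb lac p (rr j) ha0 (second_bound hj p hp')).trans (le_of_eq ?_)
    rw [two_pow_rr]
    have := ha0.ne'
    field_simp
    norm_num
  set P : ℕ → unitInterval := fun j => Set.projIcc 0 1 zero_le_one (pp j) with hP
  have hPv : ∀ j, 3 ≤ j → ((P j : unitInterval) : ℝ) = pp j := by
    intro j hj
    simp only [hP]
    rw [Set.projIcc_of_mem zero_le_one (hpar j hj)]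
  have h1 := bc (GW lac) (fun j => {Z | SS (P j) (rr j) Z ≤ 2 ^ rr j * ga lac (P j) / 2})
    (fun j => 8 * (1 / NN j)) (summable_inv_NN.mul_left 8) 3
    (fun j hj => (key j hj (P j) (hPv j hj)).1)
  have h2 := bc (GW lac) (fun j => {Z | NN j * (2 ^ rr j * ga lac (P j)) ≤ SS (P j) (rr j) Z})
    (fun j => 1 / NN j) summable_inv_NN 3
    (fun j hj => (key j hj (P j) (hPv j hj)).2)
  filter_upwards [h1, h2, ae_two] with Z hZ1 hZ2 hZ3
  filter_upwards [hZ1, hZ2, eventually_ge_atTop 3] with j hj1 hj2 hj3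
  have h3 : gr Z (pp j) = gx (P j) Z := by
    rw [← hPv j hj3]; exact gr_eq Z (P j)
  rw [h3]
  exact lower_of_good hj3 (P j) (hPv j hj3) hZ3 (not_le.1 hj1) (not_le.1 hj2)

theorem window {j : ℕ} (hj : 3 ≤ j) : pm j < pp j ∧ pp j - pm j ≤ 4 * (1 / NN j ^ 11) ∧
    1 / mm + 1 / NN j ^ 11 ≤ pm j ∧ pp j - 1 / mm ≤ 4 * (1 / NN j ^ 11) + ww j := by
  have hN := NN_large hj
  have hN0 := NN_pos j
  have hs0 := sm_pos j
  have hsp := sp_pos j
  have hlt := sm_lt_sp (j := j)
  have h2 : sp j ≤ 1 / 10 ^ 6 := inv_pow_le hj (by norm_num)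
  have hm1 := mm_lower
  have hm2 := mm_upper
  obtain ⟨hA1, hA2⟩ := GG_near hj hsp.le le_rfl
  obtain ⟨hB1, hB2⟩ := GG_near hj hs0.le hlt.le
  have hG1 := GG_le_mm hsp.le (by linarith)
  have hG2 := GG_le_mm hs0.le (by linarith : sm j ≤ 1)
  have hG3 := GG_strict hs0.le hlt (by linarith)
  set G1 := GG (sp j) with hG1d
  set G2 := GG (sm j) with hG2d
  have hG1p : 2 ≤ G1 := by linarith
  have hG2p : 2 ≤ G2 := by linarith
  have hpp : pp j = 1 / G1 := rfl
  have hpm : pm j = 1 / G2 := rfl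
  have hdiff : ∀ a b : ℝ, 2 ≤ a → 2 ≤ b → b ≤ a → a ≤ 3 →
      1 / b - 1 / a ≤ a - b ∧ (a - b) / 9 ≤ 1 / b - 1 / a := by
    intro a b ha hb hab ha3
    have ha0 : 0 < a := by linarith
    have hb0 : 0 < b := by linarith
    have e : 1 / b - 1 / a = (a - b) / (a * b) := by field_simp
    have hab1 : 1 ≤ a * b := by nlinarith
    have hab9 : a * b ≤ 9 := by nlinarith
    rw [e]
    constructor
    · rw [div_le_iff₀ (by positivity)]; nlinarith
    · rw [div_le_div_iff₀ (by norm_num) (by positivity)]; nlinarith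
  refine ⟨?_, ?_, ?_, ?_⟩
  · rw [hpp, hpm]
    exact one_div_lt_one_div_of_lt (by linarith) hG3
  · rw [hpp, hpm]
    refine (hdiff G2 G1 hG2p hG1p hG3.le (by linarith)).1.trans ?_
    have h3 := GG_upper_pos hs0 hlt.le (by linarith) j
    have h4 : sp j - sm j ≤ 1 / NN j ^ 11 := by
      have : sp j ≤ sp j * NN j := by nlinarith
      rw [sp_NN] at this
      linarith
    have h5 : 2 * (ww j * xx j) * (sp j - sm j) ≤ 2 * (1 / NN j ^ 11) := by
      have e : 2 * (ww j * xx j) * (sp j - sm j) = 2 * (ww j * ((sp j - sm j) * NN j)) := by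
        unfold NN; ring
      rw [e]
      have h6 : (sp j - sm j) * NN j ≤ 1 / NN j ^ 11 := by
        rw [← sp_NN]
        exact mul_le_mul_of_nonneg_right (by linarith) hN0.le
      have h7 : ww j * ((sp j - sm j) * NN j) ≤ 1 * (1 / NN j ^ 11) :=
        mul_le_mul (ww_le_one j) h6 (mul_nonneg (by linarith) hN0.le) (by norm_num)
      linarith
    have h6 : ww j * (1 / (xx (j + 1) * sm j)) ≤ 1 / NN j ^ 11 := by
      have e : (xx (j + 1) : ℝ) * sm j = NN j ^ 11 := by
        rw [xx_succ]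
        push_cast
        unfold sm
        have e2 : (xx j : ℝ) = NN j := rfl
        rw [e2]
        field_simp
      rw [e]
      calc ww j * (1 / NN j ^ 11) ≤ 1 * (1 / NN j ^ 11) := by
            have := ww_le_one j
            gcongr
        _ = 1 / NN j ^ 11 := one_mul _
    linarith
  · have h3 := GG_gap hs0 (by linarith : sm j ≤ 1) j (by
      have e : sm j * xx (j + 1) = NN j ^ 11 := by
        rw [xx_succ]
        push_cast
        unfold sm
        have e2 : (xx j : ℝ) = NN j := rfl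
        rw [e2]
        field_simp
      rw [e]
      have h4 : NN j ^ 1 ≤ NN j ^ 11 := pow_le_pow_right₀ (by linarith) (by norm_num)
      rw [pow_one] at h4
      linarith)
    have h4 := (hdiff mm G2 (by linarith) hG2p hG2 hm2).2
    rw [hpm]
    have h5 : 1 / NN j ^ 11 ≤ ww j / 36 := by
      have h6 := one_le_ww_NN j
      rw [div_le_iff₀ (by positivity)]
      have h7 : NN j ^ 11 = NN j * (NN j * NN j ^ 9) := by ring
      have h8 : (1 : ℝ) ≤ NN j ^ 9 := one_le_pow₀ (by linarith)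
      rw [h7]
      have h9 : 36 ≤ NN j * NN j ^ 9 := by nlinarith
      have h10 : ww j / 36 * (NN j * (NN j * NN j ^ 9)) =
          (ww j * NN j) * (NN j * NN j ^ 9) / 36 := by ring
      rw [h10]
      nlinarith
    linarith
  · rw [hpp]
    exact (hdiff mm G1 (by linarith) hG1p hG1 hm2).1.trans hA2

theorem tendsto_NN : Tendsto NN atTop atTop := by
  have h1 : Tendsto (fun j : ℕ => (j : ℝ)) atTop atTop := tendsto_natCast_atTop_atTop
  refine tendsto_atTop_mono (fun j => ?_) h1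
  unfold NN
  exact_mod_cast le_xx j

/-- not twice continuously differentiable -/
theorem ae_not_C2 : ∀ᵐ Z ∂GW lac, ∀ δ : ℝ, 0 < δ →
    ¬ ContDiffOn ℝ 2 (gr Z) (Set.Ico (1 / mm) (1 / mm + δ)) := by
  filter_upwards [ae_upper, ae_lower] with Z hZ1 hZ2
  intro δ hδ hC
  obtain ⟨M, hM0, hM⟩ := divided_bound hδ hC
  have hlim1 : Tendsto (fun j => 4 * (1 / NN j ^ 11) + ww j) atTop (𝓝 (4 * 0 + 0)) := by
    refine Tendsto.add (Tendsto.const_mul _ ?_) ?_
    · have h1 : Tendsto (fun j => NN j ^ 11) atTop atTop :=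
        (tendsto_pow_atTop (by norm_num)).comp tendsto_NN
      simp only [one_div]
      exact h1.inv_tendsto_atTop
    · exact tendsto_pow_atTop_nhds_zero_of_lt_one (by norm_num) (by norm_num)
  have hlim2 : ∀ᶠ j in atTop, 4 * (1 / NN j ^ 11) + ww j < δ / 2 := by
    refine hlim1.eventually_lt_const ?_
    linarith
  have hlim3 : ∀ᶠ j in atTop, 100 * M + 1 ≤ NN j := tendsto_NN.eventually_ge_atTop _
  obtain ⟨j, hj1, hj2, hj3, hj4, hj5⟩ := (hZ1.and (hZ2.and ((eventually_ge_atTop 3).and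
    (hlim2.and hlim3)))).exists
  obtain ⟨hw1, hw2, hw3, hw4⟩ := window hj3
  have hN := NN_large hj3
  have hN0 := NN_pos j
  set h : ℝ := 1 / NN j ^ 11 with hh
  have hh0 : 0 < h := by positivity
  have hmain := hM (pm j - h) (pm j) (pp j) (by linarith) (by linarith) hw1 (by linarith)
  have hx0 : 0 ≤ gr Z (pm j - h) := gr_nonneg Z _
  -- the first slope
  have hs1 : (gr Z (pm j) - gr Z (pm j - h)) / (pm j - (pm j - h)) ≤ 3 / NN j ^ 9 := by
    rw [show pm j - (pm j - h) = h by ring, div_le_iff₀ hh0]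
    have e : 3 / NN j ^ 9 * h = 3 / NN j ^ 20 := by rw [hh]; field_simp
    rw [e]
    linarith
  -- the second slope
  have hd0 : 0 < pp j - pm j := by linarith
  have hs2 : 1 / (16 * NN j ^ 3) ≤ (gr Z (pp j) - gr Z (pm j)) / (pp j - pm j) := by
    rw [le_div_iff₀ hd0]
    have h1 : 1 / (16 * NN j ^ 3) * (pp j - pm j) ≤ 1 / (16 * NN j ^ 3) * (4 * h) := by
      gcongr
    have h2 : 1 / (16 * NN j ^ 3) * (4 * h) = 1 / (4 * NN j ^ 14) := by
      rw [hh]; field_simp; norm_num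
    have h3 : 1 / (2 * NN j ^ 14) = 1 / (4 * NN j ^ 14) + 1 / (4 * NN j ^ 14) := by
      field_simp; norm_num
    have h4 : 3 / NN j ^ 20 ≤ 1 / (4 * NN j ^ 14) := by
      rw [div_le_div_iff₀ (by positivity) (by positivity)]
      have e : NN j ^ 20 = NN j ^ 14 * (NN j * NN j ^ 5) := by ring
      have h8 : (1 : ℝ) ≤ NN j ^ 5 := one_le_pow₀ (by linarith)
      have h9 : 12 ≤ NN j * NN j ^ 5 := by nlinarith
      have h10 : (0 : ℝ) < NN j ^ 14 := by positivity
      rw [e]
      nlinarith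
    linarith
  have hbound : M * (pp j - (pm j - h)) ≤ M * (5 * h) := by
    gcongr
    linarith
  have hfin : 1 / (16 * NN j ^ 3) ≤ 3 / NN j ^ 9 + M * (5 * h) := by linarith
  have h5 : 3 / NN j ^ 9 ≤ 1 / (64 * NN j ^ 3) := by
    rw [div_le_div_iff₀ (by positivity) (by positivity)]
    have e : NN j ^ 9 = NN j ^ 3 * (NN j * NN j ^ 5) := by ring
    have h8 : (1 : ℝ) ≤ NN j ^ 5 := one_le_pow₀ (by linarith)
    have h9 : 192 ≤ NN j * NN j ^ 5 := by nlinarith
    have h10 : (0 : ℝ) < NN j ^ 3 := by positivity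
    rw [e]
    nlinarith
  have h6 : M * (5 * h) ≤ 1 / (64 * NN j ^ 3) := by
    have e : M * (5 * h) = (5 * M) / NN j ^ 11 := by rw [hh]; ring
    rw [e, div_le_div_iff₀ (by positivity) (by positivity)]
    have e2 : NN j ^ 11 = NN j ^ 3 * (NN j * (NN j * NN j ^ 6)) := by ring
    have h8 : (1 : ℝ) ≤ NN j ^ 6 := one_le_pow₀ (by linarith)
    have h9 : 320 ≤ NN j * NN j ^ 6 := by nlinarith
    have h10 : (0 : ℝ) < NN j ^ 3 := by positivity
    have h11 : M ≤ NN j := by linarith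
    have h12 : M * 320 ≤ NN j * (NN j * NN j ^ 6) :=
      mul_le_mul h11 h9 (by norm_num) hN0.le
    rw [e2]
    nlinarith
  have h7 : 1 / (16 * NN j ^ 3) = 1 / (64 * NN j ^ 3) + 1 / (64 * NN j ^ 3) +
      1 / (32 * NN j ^ 3) := by
    field_simp; norm_num
  have h8 : 0 < 1 / (32 * NN j ^ 3) := by positivity
  linarith

/-- flatness along dyadic points -/
theorem ae_dyadic (k : ℕ) : ∀ᵐ Z ∂GW lac, ∀ᶠ n in atTop,
    gr Z (1 / mm + (1 / 2) ^ n) < ((1 / 2 : ℝ) ^ n) ^ k := by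
  set C : ℝ := 6 * (2 : ℝ) ^ ((k + 1) * (k + 1)) * 36 ^ (k + 1) with hC
  have hm1 := mm_lower
  have hmm : 1 / mm ≤ 1 / 2 := one_div_le_one_div_of_le (by norm_num) (by linarith)
  have hmm0 : 0 < 1 / mm := by positivity
  have hsum : Summable fun n : ℕ => C * (1 / 2 : ℝ) ^ n :=
    (summable_geometric_of_lt_one (by norm_num) (by norm_num)).mul_left C
  have h1 := bc (GW lac) (fun n => {Z | ((1 / 2 : ℝ) ^ n) ^ k ≤ gr Z (1 / mm + (1 / 2) ^ n)})
    (fun n => C * (1 / 2 : ℝ) ^ n) hsum 1 (fun n hn => by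
      set e : ℝ := (1 / 2) ^ n with he
      have he0 : 0 < e := by positivity
      have he1 : e ≤ 1 / 2 := by
        rw [he]
        calc ((1 : ℝ) / 2) ^ n ≤ (1 / 2) ^ 1 :=
              pow_le_pow_of_le_one (by norm_num) (by norm_num) hn
          _ = 1 / 2 := pow_one _
      have hmem : 1 / mm + e ∈ Set.Icc (0 : ℝ) 1 := ⟨by linarith, by linarith⟩
      set p : unitInterval := ⟨1 / mm + e, hmem⟩ with hp
      have h2 := ga_flat (k + 1) (p := 1 / mm + e) (by linarith) hmem.2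
      rw [add_sub_cancel_left, mul_pow] at h2
      have hint : Integrable (gx p) (GW lac) := integrable_SS lac p 0
      have h3 := mul_meas_ge_le_integral_of_nonneg (μ := GW lac) (f := gx p)
        (Eventually.of_forall fun Z => gx_nonneg p Z) hint (e ^ k)
      rw [integral_gx] at h3
      have h4 : {Z | e ^ k ≤ gr Z (1 / mm + e)} = {Z | e ^ k ≤ gx p Z} := by
        ext Z
        have : gr Z (1 / mm + e) = gx p Z := gr_eq Z p
        show e ^ k ≤ gr Z (1 / mm + e) ↔ e ^ k ≤ gx p Z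
        rw [this]
      rw [h4]
      have h5 : e ^ k * (GW lac).real {Z | e ^ k ≤ gx p Z} ≤ e ^ k * (C * e) := by
        refine h3.trans (h2.trans (le_of_eq ?_))
        rw [hC, pow_succ e k]
        ring
      exact le_of_mul_le_mul_left h5 (by positivity))
  filter_upwards [h1] with Z hZ
  filter_upwards [hZ] with n hn
  exact not_le.1 hn

/-- the expansions -/
theorem ae_expansion (k : ℕ) : ∀ᵐ Z ∂GW lac, HasExpansion (gr Z) (1 / mm) k := by
  filter_upwards [ae_dyadic (k + 1)] with Z hZ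
  refine ⟨fun _ => 0, ?_⟩
  simp only [zero_mul, Finset.sum_const_zero, sub_zero]
  obtain ⟨n0, hn0⟩ := eventually_atTop.1 hZ
  have h1 : (fun ε : ℝ => gr Z (1 / mm + ε)) =O[𝓝[>] 0] fun ε : ℝ => ε ^ (k + 1) := by
    refine Asymptotics.IsBigO.of_bound (2 ^ (k + 1)) ?_
    have h2 : Set.Ioc (0 : ℝ) ((1 / 2) ^ n0) ∈ 𝓝[>] (0 : ℝ) := Ioc_mem_nhdsGT (by positivity)
    filter_upwards [h2] with ε hε
    obtain ⟨hε0, hε1⟩ := hε
    -- the largest n with ε ≤ 2^{-n}
    have hex : ∃ n, (1 / 2 : ℝ) ^ n < ε := exists_pow_lt_of_lt_one hε0 (by norm_num)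
    classical
    set m := Nat.find hex with hm
    have hm1 : (1 / 2 : ℝ) ^ m < ε := Nat.find_spec hex
    have hm0 : n0 < m := by
      by_contra hcon
      push Not at hcon
      have : (1 / 2 : ℝ) ^ n0 ≤ (1 / 2) ^ m :=
        pow_le_pow_of_le_one (by norm_num) (by norm_num) hcon
      linarith
    obtain ⟨n, hn⟩ : ∃ n, m = n + 1 := ⟨m - 1, by omega⟩
    have hn1 : ε ≤ (1 / 2 : ℝ) ^ n := by
      have := Nat.find_min hex (m := n) (by omega)
      exact not_lt.1 this
    have h3 := hn0 n (by omega)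
    have h4 : gr Z (1 / mm + ε) ≤ gr Z (1 / mm + (1 / 2) ^ n) := gr_mono Z (by linarith)
    have h5 : (1 / 2 : ℝ) ^ n ≤ 2 * ε := by
      rw [hn, pow_succ] at hm1
      linarith
    have h6 : ((1 / 2 : ℝ) ^ n) ^ (k + 1) ≤ (2 * ε) ^ (k + 1) :=
      pow_le_pow_left₀ (by positivity) h5 _
    rw [mul_pow] at h6
    rw [Real.norm_of_nonneg (gr_nonneg Z _), Real.norm_of_nonneg (pow_nonneg hε0.le _)]
    linarith
  refine h1.trans_isLittleO ?_
  exact (Asymptotics.isLittleO_pow_pow (Nat.lt_succ_self k)).mono nhdsWithin_le_nhds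

end Pool.Agent.H99.GQ
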