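import Mathlib

set_option autoImplicit false

/-!
# A lacunary series

(adapted from the library file `X136/GS/Lac`)
-/

namespace Pool.Agent.H99.GQ

open Filter Topology

/-- the geometric sum -/
def AK (k : ℕ) (s : ℝ) : ℝ := ∑ i ∈ Finset.range k, (1 - s) ^ i

theorem AK_mul (k : ℕ) (s : ℝ) : s * AK k s = 1 - (1 - s) ^ k := by
  have h := geom_sum_mul (1 - s) k
  unfold AK
  linarith

theorem AK_nonneg (k : ℕ) {s : ℝ} (h1 : s ≤ 1) : 0 ≤ AK k s :=
  Finset.sum_nonneg fun i _ => pow_nonneg (by linarith) i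

theorem AK_le (k : ℕ) {s : ℝ} (h0 : 0 ≤ s) (h1 : s ≤ 1) : AK k s ≤ k := by
  unfold AK
  calc ∑ i ∈ Finset.range k, (1 - s) ^ i ≤ ∑ i ∈ Finset.range k, 1 :=
        Finset.sum_le_sum fun i _ => pow_le_one₀ (by linarith) (by linarith)
    _ = k := by simp

theorem AK_zero (k : ℕ) : AK k 0 = k := by unfold AK; simp

theorem one_le_AK {k : ℕ} (hk : 1 ≤ k) {s : ℝ} (h1 : s ≤ 1) : 1 ≤ AK k s := by
  obtain ⟨m, rfl⟩ : ∃ m, k = m + 1 := ⟨k - 1, by omega⟩
  unfold AK
  rw [Finset.sum_range_succ']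
  have : 0 ≤ ∑ i ∈ Finset.range m, (1 - s) ^ (i + 1) :=
    Finset.sum_nonneg fun i _ => pow_nonneg (by linarith) _
  simp only [pow_zero]
  linarith

theorem AK_anti (k : ℕ) {s t : ℝ} (hst : s ≤ t) (h1 : t ≤ 1) : AK k t ≤ AK k s := by
  unfold AK
  refine Finset.sum_le_sum fun i _ => ?_
  exact pow_le_pow_left₀ (by linarith) (by linarith) i

theorem pow_diff {s t : ℝ} (h0 : 0 ≤ s) (hst : s ≤ t) (h1 : t ≤ 1) (i : ℕ) :
    (1 - s) ^ i - (1 - t) ^ i ≤ i * (t - s) := by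
  induction i with
  | zero => simp
  | succ i ih =>
    have e : (1 - s) ^ (i + 1) - (1 - t) ^ (i + 1) =
        (1 - s) * ((1 - s) ^ i - (1 - t) ^ i) + (1 - t) ^ i * (t - s) := by ring
    rw [e]
    have h2 : 0 ≤ (1 - s) ^ i - (1 - t) ^ i := by
      have := pow_le_pow_left₀ (show 0 ≤ 1 - t by linarith) (show 1 - t ≤ 1 - s by linarith) i
      linarith
    have h3 : (1 - t) ^ i ≤ 1 := pow_le_one₀ (by linarith) (by linarith)
    have h4 : (1 - s) * ((1 - s) ^ i - (1 - t) ^ i) ≤ 1 * ((1 - s) ^ i - (1 - t) ^ i) := by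
      gcongr
      linarith
    have h5 : (1 - t) ^ i * (t - s) ≤ 1 * (t - s) :=
      mul_le_mul_of_nonneg_right h3 (by linarith)
    push_cast
    nlinarith

theorem AK_diff (k : ℕ) {s t : ℝ} (h0 : 0 ≤ s) (hst : s ≤ t) (h1 : t ≤ 1) :
    AK k s - AK k t ≤ (k : ℝ) * (k * (t - s)) := by
  unfold AK
  rw [← Finset.sum_sub_distrib]
  calc ∑ i ∈ Finset.range k, ((1 - s) ^ i - (1 - t) ^ i)
      ≤ ∑ _i ∈ Finset.range k, (k : ℝ) * (t - s) := by
        refine Finset.sum_le_sum fun i hi => (pow_diff h0 hst h1 i).trans ?_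
        have : (i : ℝ) ≤ k := by exact_mod_cast (Finset.mem_range.1 hi).le
        gcongr
    _ = _ := by rw [Finset.sum_const, Finset.card_range, nsmul_eq_mul]

theorem pow_small {k : ℕ} {s : ℝ} (h0 : 0 ≤ s) (h1 : s ≤ 1) :
    (1 - s) ^ k * (1 + k * s) ≤ 1 := by
  have h2 : (1 : ℝ) + k * s ≤ (1 + s) ^ k := one_add_mul_le_pow (by linarith) k
  calc (1 - s) ^ k * (1 + k * s) ≤ (1 - s) ^ k * (1 + s) ^ k := by
        gcongr
    _ = (1 - s ^ 2) ^ k := by rw [← mul_pow]; ring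
    _ ≤ 1 := pow_le_one₀ (by nlinarith) (by nlinarith)

/-! ### the positions -/

/-- the positions -/
def xx (j : ℕ) : ℕ := 2 ^ 32 ^ j

theorem xx_succ (j : ℕ) : xx (j + 1) = xx j ^ 32 := by
  unfold xx
  rw [← pow_mul, pow_succ]

theorem xx_zero : xx 0 = 2 := rfl

theorem xx_one : xx 1 = 2 ^ 32 := rfl

theorem two_le_xx (j : ℕ) : 2 ≤ xx j := by
  unfold xx
  calc 2 = 2 ^ 1 := rfl
    _ ≤ 2 ^ 32 ^ j := Nat.pow_le_pow_right (by norm_num) (Nat.one_le_pow _ _ (by norm_num))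

theorem xx_mono : Monotone xx := by
  intro a b h
  unfold xx
  exact Nat.pow_le_pow_right (by norm_num) (Nat.pow_le_pow_right (by norm_num) h)

theorem le_five_pow (j : ℕ) : 3 * j ≤ 32 ^ j := by
  induction j with
  | zero => simp
  | succ j ih =>
    rw [pow_succ]
    rcases Nat.eq_zero_or_pos j with h | h
    · subst h; norm_num
    · omega

theorem eight_pow_le (j : ℕ) : 8 ^ j ≤ xx j := by
  unfold xx
  calc 8 ^ j = 2 ^ (3 * j) := by rw [pow_mul]; norm_num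
    _ ≤ _ := Nat.pow_le_pow_right (by norm_num) (le_five_pow j)

theorem le_xx (j : ℕ) : j ≤ xx j :=
  (Nat.lt_pow_self (by norm_num : 1 < 8)).le.trans (eight_pow_le j)

/-- the weights -/
noncomputable def ww (j : ℕ) : ℝ := (1 / 2) ^ j

theorem ww_pos (j : ℕ) : 0 < ww j := by unfold ww; positivity

theorem ww_succ (j : ℕ) : ww (j + 1) = ww j / 2 := by unfold ww; rw [pow_succ]; ring

theorem hasSum_ww : HasSum ww 2 := hasSum_geometric_two

theorem tsum_ww_add (j : ℕ) : ∑' i, ww (i + (j + 1)) = ww j := by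
  have : ∀ i, ww (i + (j + 1)) = ww (j + 1) * (1 / 2) ^ i := by
    intro i; unfold ww; rw [pow_add]; ring
  simp only [this]
  rw [tsum_mul_left, tsum_geometric_two, ww_succ]
  ring

/-- normalised sums -/
noncomputable def aj (j : ℕ) (s : ℝ) : ℝ := AK (xx j) s / xx j

theorem xx_pos (j : ℕ) : (0 : ℝ) < xx j := by
  have := two_le_xx j
  exact_mod_cast (by omega : 0 < xx j)

theorem aj_nonneg (j : ℕ) {s : ℝ} (h1 : s ≤ 1) : 0 ≤ aj j s :=
  div_nonneg (AK_nonneg _ h1) (xx_pos j).le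

theorem aj_le_one (j : ℕ) {s : ℝ} (h0 : 0 ≤ s) (h1 : s ≤ 1) : aj j s ≤ 1 :=
  div_le_one_of_le₀ (AK_le _ h0 h1) (xx_pos j).le

theorem aj_zero (j : ℕ) : aj j 0 = 1 := by
  unfold aj; rw [AK_zero, div_self (xx_pos j).ne']

theorem aj_anti (j : ℕ) {s t : ℝ} (hst : s ≤ t) (h1 : t ≤ 1) : aj j t ≤ aj j s :=
  div_le_div_of_nonneg_right (AK_anti _ hst h1) (xx_pos j).le

theorem aj_diff (j : ℕ) {s t : ℝ} (h0 : 0 ≤ s) (hst : s ≤ t) (h1 : t ≤ 1) :
    aj j s - aj j t ≤ xx j * (t - s) := by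
  unfold aj
  rw [← sub_div, div_le_iff₀ (xx_pos j)]
  have := AK_diff (xx j) h0 hst h1
  linarith

theorem aj_le_inv (j : ℕ) {s : ℝ} (h0 : 0 < s) (h1 : s ≤ 1) : aj j s ≤ 1 / (xx j * s) := by
  unfold aj
  rw [div_le_div_iff₀ (xx_pos j) (mul_pos (xx_pos j) h0)]
  have h2 := AK_mul (xx j) s
  have h3 : 0 ≤ (1 - s) ^ (xx j) := pow_nonneg (by linarith) _
  have h4 : s * AK (xx j) s ≤ 1 := by linarith
  have h5 := xx_pos j
  nlinarith

/-- the function `G` -/
noncomputable def LL (s : ℝ) : ℝ := ∑' j, ww j * aj j s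

theorem summable_LL {s : ℝ} (h0 : 0 ≤ s) (h1 : s ≤ 1) : Summable fun j => ww j * aj j s :=
  hasSum_ww.summable.of_nonneg_of_le (fun j => mul_nonneg (ww_pos j).le (aj_nonneg j h1))
    fun j => mul_le_of_le_one_right (ww_pos j).le (aj_le_one j h0 h1)

theorem LL_zero : LL 0 = 2 := by
  unfold LL
  simp only [aj_zero, mul_one]
  exact hasSum_ww.tsum_eq

theorem LL_sub {s t : ℝ} (h0 : 0 ≤ s) (hst : s ≤ t) (h1 : t ≤ 1) :
    LL s - LL t = ∑' j, ww j * (aj j s - aj j t) := by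
  unfold LL
  rw [← (summable_LL h0 (hst.trans h1)).tsum_sub (summable_LL (h0.trans hst) h1)]
  exact tsum_congr fun j => by ring

theorem summable_LL_sub {s t : ℝ} (h0 : 0 ≤ s) (hst : s ≤ t) (h1 : t ≤ 1) :
    Summable fun j => ww j * (aj j s - aj j t) := by
  have := (summable_LL h0 (hst.trans h1)).sub (summable_LL (h0.trans hst) h1)
  refine this.congr fun j => by ring

theorem LL_sub_term {s t : ℝ} (h0 : 0 ≤ s) (hst : s ≤ t) (h1 : t ≤ 1) (j : ℕ) :
    ww j * (aj j s - aj j t) ≤ LL s - LL t := by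
  rw [LL_sub h0 hst h1]
  refine (summable_LL_sub h0 hst h1).le_tsum j fun i _ => ?_
  have := aj_anti i hst h1
  exact mul_nonneg (ww_pos i).le (by linarith)

theorem LL_anti {s t : ℝ} (h0 : 0 ≤ s) (hst : s ≤ t) (h1 : t ≤ 1) : LL t ≤ LL s := by
  have h2 := LL_sub_term h0 hst h1 0
  have h3 := aj_anti 0 hst h1
  have h4 := ww_pos 0
  nlinarith

theorem LL_strict {s t : ℝ} (h0 : 0 ≤ s) (hst : s < t) (h1 : t ≤ 1) : LL t < LL s := by
  have h2 := LL_sub_term h0 hst.le h1 0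
  have e : ∀ u, aj 0 u = (1 + (1 - u)) / 2 := by
    intro u
    unfold aj AK
    rw [xx_zero, Finset.sum_range_succ, Finset.sum_range_one]
    norm_num
  rw [e, e] at h2
  unfold ww at h2
  simp only [pow_zero, one_mul] at h2
  linarith

theorem LL_le_two {s : ℝ} (h0 : 0 ≤ s) (h1 : s ≤ 1) : LL s ≤ 2 := by
  rw [← LL_zero]; exact LL_anti le_rfl h0 h1

theorem half_le_LL {s : ℝ} (h0 : 0 ≤ s) (h1 : s ≤ 1) : 1 / 2 ≤ LL s := by
  have h2 : ww 0 * aj 0 s ≤ LL s :=
    (summable_LL h0 h1).le_tsum 0 fun i _ => mul_nonneg (ww_pos i).le (aj_nonneg i h1)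
  have h3 : (1 : ℝ) / 2 ≤ aj 0 s := by
    unfold aj
    rw [xx_zero]
    have := one_le_AK (k := 2) (by norm_num) h1
    push_cast
    linarith
  have h4 : ww 0 = 1 := by unfold ww; simp
  rw [h4, one_mul] at h2
  linarith

theorem sum_head (j : ℕ) : ∑ i ∈ Finset.range (j + 1), ww i * xx i ≤ 2 * (ww j * xx j) := by
  induction j with
  | zero =>
    rw [Finset.sum_range_one]
    have : 0 < ww 0 * xx 0 := mul_pos (ww_pos 0) (xx_pos 0)
    linarith
  | succ j ih =>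
    rw [Finset.sum_range_succ]
    have h1 : (4 : ℝ) * xx j ≤ xx (j + 1) := by
      rw [xx_succ]
      have h2 := two_le_xx j
      have h3 : 4 * xx j ≤ xx j ^ 32 := by
        calc 4 * xx j ≤ xx j ^ 31 * xx j := by
              gcongr
              calc 4 ≤ 2 ^ 31 := by norm_num
                _ ≤ xx j ^ 31 := Nat.pow_le_pow_left h2 31
          _ = xx j ^ 32 := by ring
      exact_mod_cast h3
    have h2 : 2 * (ww j * xx j) ≤ ww (j + 1) * xx (j + 1) := by
      rw [ww_succ]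
      have := ww_pos j
      nlinarith
    linarith

/-- upper bound for increments -/
theorem LL_upper {s t : ℝ} (h0 : 0 ≤ s) (hst : s ≤ t) (h1 : t ≤ 1) (j : ℕ) {c : ℝ}
    (hc : ∀ i, j + 1 ≤ i → aj i s - aj i t ≤ c) :
    LL s - LL t ≤ 2 * (ww j * xx j) * (t - s) + ww j * c := by
  rw [LL_sub h0 hst h1, ← (summable_LL_sub h0 hst h1).sum_add_tsum_nat_add (j + 1)]
  refine add_le_add ?_ ?_
  · calc ∑ i ∈ Finset.range (j + 1), ww i * (aj i s - aj i t)
        ≤ ∑ i ∈ Finset.range (j + 1), (ww i * xx i) * (t - s) := by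
          refine Finset.sum_le_sum fun i _ => ?_
          have := mul_le_mul_of_nonneg_left (aj_diff i h0 hst h1) (ww_pos i).le
          linarith
      _ = (∑ i ∈ Finset.range (j + 1), ww i * xx i) * (t - s) := by rw [Finset.sum_mul]
      _ ≤ _ := mul_le_mul_of_nonneg_right (sum_head j) (by linarith)
  · have hs : Summable fun i => ww (i + (j + 1)) * c := by
      refine Summable.mul_right _ ?_
      exact (summable_nat_add_iff (j + 1)).2 hasSum_ww.summable
    calc ∑' i, ww (i + (j + 1)) * (aj (i + (j + 1)) s - aj (i + (j + 1)) t)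
        ≤ ∑' i, ww (i + (j + 1)) * c := by
          refine Summable.tsum_le_tsum (fun i => ?_) ?_ hs
          · exact mul_le_mul_of_nonneg_left (hc _ (by omega)) (ww_pos _).le
          · exact (summable_nat_add_iff (f := fun i => ww i * (aj i s - aj i t)) (j + 1)).2
              (summable_LL_sub h0 hst h1)
      _ = ww j * c := by rw [tsum_mul_right, tsum_ww_add]

theorem LL_upper_pos {s t : ℝ} (h0 : 0 < s) (hst : s ≤ t) (h1 : t ≤ 1) (j : ℕ) :
    LL s - LL t ≤ 2 * (ww j * xx j) * (t - s) + ww j * (1 / (xx (j + 1) * s)) := by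
  refine LL_upper h0.le hst h1 j fun i hi => ?_
  have h2 := aj_nonneg i h1
  have h3 := aj_le_inv i h0 (hst.trans h1)
  have h4 : 1 / (xx i * s) ≤ 1 / (xx (j + 1) * s) := by
    have h5 : (xx (j + 1) : ℝ) ≤ xx i := by exact_mod_cast xx_mono hi
    have h6 := xx_pos (j + 1)
    gcongr
  linarith

theorem LL_upper_zero {t : ℝ} (h0 : 0 ≤ t) (h1 : t ≤ 1) (j : ℕ) :
    2 - LL t ≤ 2 * (ww j * xx j) * t + ww j := by
  have h := LL_upper le_rfl h0 h1 j (c := 1) fun i _ => by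
    have h2 := aj_nonneg i h1
    rw [aj_zero]; linarith
  rw [LL_zero, sub_zero, mul_one] at h
  exact h

theorem LL_gap {s : ℝ} (h0 : 0 < s) (h1 : s ≤ 1) (j : ℕ) (hj : 2 ≤ s * xx (j + 1)) :
    ww j / 4 ≤ 2 - LL s := by
  have h2 := LL_sub_term le_rfl h0.le h1 (j + 1)
  rw [LL_zero, aj_zero, ww_succ] at h2
  have h3 := aj_le_inv (j + 1) h0 h1
  have h4 : 1 / (xx (j + 1) * s) ≤ 1 / 2 := by
    refine one_div_le_one_div_of_le (by norm_num) ?_
    linarith
  have h5 := ww_pos j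
  nlinarith

end Pool.Agent.H99.GQ
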