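import Pool.Agent.H99.GQ.Lac
import Pool.Agent.H99.GQ.Rec

set_option autoImplicit false

/-!
# The lacunary offspring law and its annealed survival function

(adapted from the library file `X136/GS/Law`; here every vertex has at least two children)
-/

namespace Pool.Agent.H99.GQ

open MeasureTheory ProbabilityTheory Filter Topology

/-- the mass at `xx j` -/
noncomputable def cc (j : ℕ) : ENNReal := ENNReal.ofReal (ww j / xx j)

theorem summable_wx : Summable fun j => ww j / xx j := by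
  refine hasSum_ww.summable.of_nonneg_of_le (fun j => div_nonneg (ww_pos j).le (xx_pos j).le) ?_
  intro j
  have h2 : (1 : ℝ) ≤ xx j := by
    have := two_le_xx j
    exact_mod_cast (by omega : 1 ≤ xx j)
  exact div_le_self (ww_pos j).le h2

/-- the total mass of the `cc j` -/
noncomputable def qq : ℝ := ∑' j, ww j / xx j

theorem qq_lower : 1 / 2 ≤ qq := by
  have h := summable_wx.le_tsum 0 fun j _ => div_nonneg (ww_pos j).le (xx_pos j).le
  have h0 : ww 0 / xx 0 = 1 / 2 := by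
    rw [xx_zero]; unfold ww; norm_num
  rw [h0] at h
  exact h

theorem qq_upper : qq ≤ 3 / 4 := by
  unfold qq
  rw [← summable_wx.sum_add_tsum_nat_add 1, Finset.sum_range_one]
  have h0 : ww 0 / xx 0 = 1 / 2 := by
    rw [xx_zero]; unfold ww; norm_num
  have h1 : ∑' i, ww (i + 1) / xx (i + 1) ≤ ∑' i, ww (i + (0 + 1)) * (1 / 4) := by
    refine Summable.tsum_le_tsum (fun i => ?_) ((summable_nat_add_iff 1).2 summable_wx) ?_
    · rw [div_eq_mul_one_div]
      refine mul_le_mul_of_nonneg_left ?_ (ww_pos _).le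
      refine one_div_le_one_div_of_le (by norm_num) ?_
      have h3 : (4 : ℕ) ≤ xx (i + 1) := by
        calc (4 : ℕ) ≤ xx 1 := by rw [xx_one]; norm_num
          _ ≤ xx (i + 1) := xx_mono (by omega)
      exact_mod_cast h3
    · exact Summable.mul_right _ ((summable_nat_add_iff 1).2 hasSum_ww.summable)
  rw [tsum_mul_right, tsum_ww_add] at h1
  have h2 : ww 0 = 1 := by unfold ww; simp
  rw [h0]
  rw [h2] at h1
  linarith

theorem cc_tsum : ∑' j, cc j = ENNReal.ofReal qq := by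
  unfold cc qq
  rw [ENNReal.ofReal_tsum_of_nonneg (fun j => div_nonneg (ww_pos j).le (xx_pos j).le) summable_wx]

theorem cc_sum_le : ∑' j, cc j ≤ 1 := by
  rw [cc_tsum]
  have := qq_upper
  rw [ENNReal.ofReal_le_one]
  linarith

theorem one_sub_cc : 1 - ∑' j, cc j = ENNReal.ofReal (1 - qq) := by
  rw [cc_tsum, ENNReal.ofReal_sub _ (by linarith [qq_lower]), ENNReal.ofReal_one]

/-- the density -/
noncomputable def ff (k : ℕ) : ENNReal :=
  (if k = 2 then 1 - ∑' j, cc j else 0) + ∑' j, (if k = xx j then cc j else 0)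

theorem ff_sum (g : ℕ → ENNReal) : ∑' k, ff k * g k =
    (1 - ∑' j, cc j) * g 2 + ∑' j, cc j * g (xx j) := by
  have h1 : ∀ k, ff k * g k = (if k = 2 then (1 - ∑' j, cc j) * g 2 else 0) +
      ∑' j, (if k = xx j then cc j * g (xx j) else 0) := by
    intro k
    unfold ff
    rw [add_mul]
    congr 1
    · split_ifs with h
      · rw [h]
      · rw [zero_mul]
    · rw [← ENNReal.tsum_mul_right]
      refine tsum_congr fun j => ?_
      split_ifs with h
      · rw [h]
      · rw [zero_mul]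
  simp only [h1]
  rw [ENNReal.tsum_add]
  congr 1
  · exact tsum_ite_eq 2 _
  · rw [ENNReal.tsum_comm]
    refine tsum_congr fun j => ?_
    exact tsum_ite_eq (xx j) _

/-- the lacunary offspring law: mass `2^{-j} / x_j` at `x_j = 2^{32^j}`, the rest at `2` -/
noncomputable def lac : PMF ℕ := ⟨ff, by
  have h := ff_sum fun _ => 1
  simp only [mul_one] at h
  rw [tsub_add_cancel_of_le cc_sum_le] at h
  rw [← h]
  exact ENNReal.summable.hasSum⟩

theorem lac_sum (g : ℕ → ENNReal) : ∑' k, lac k * g k =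
    ENNReal.ofReal (1 - qq) * g 2 + ∑' j, cc j * g (xx j) := by
  have h := ff_sum g
  rw [one_sub_cc] at h
  exact h

theorem lac_small {k : ℕ} (hk : k < 2) : lac k = 0 := by
  show ff k = 0
  unfold ff
  rw [if_neg (by omega), zero_add, ENNReal.tsum_eq_zero]
  intro j
  rw [if_neg]
  have := two_le_xx j
  omega

/-- the mean -/
noncomputable def mm : ℝ := 4 - 2 * qq

theorem mm_lower : 5 / 2 ≤ mm := by unfold mm; linarith [qq_upper]

theorem mm_upper : mm ≤ 3 := by unfold mm; linarith [qq_lower]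

theorem lac_mean : ∑' k : ℕ, lac k * (k : ENNReal) = ENNReal.ofReal mm := by
  rw [lac_sum]
  have : ∀ j, cc j * ((xx j : ℕ) : ENNReal) = ENNReal.ofReal (ww j) := by
    intro j
    unfold cc
    rw [← ENNReal.ofReal_natCast, ← ENNReal.ofReal_mul (div_nonneg (ww_pos j).le (xx_pos j).le),
      div_mul_cancel₀ _ (xx_pos j).ne']
  simp only [this]
  have hq := qq_upper
  rw [← ENNReal.ofReal_tsum_of_nonneg (fun j => (ww_pos j).le) hasSum_ww.summable,
    hasSum_ww.tsum_eq, show ((2 : ℕ) : ENNReal) = ENNReal.ofReal 2 by simp,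
    ← ENNReal.ofReal_mul (by linarith), ← ENNReal.ofReal_add (by linarith) (by norm_num)]
  congr 1
  unfold mm
  ring

/-- the function `G` -/
noncomputable def GG (s : ℝ) : ℝ := (1 - qq) * (2 - s) + LL s

theorem GG_zero : GG 0 = mm := by
  unfold GG mm; rw [LL_zero]; ring

theorem GG_anti {s t : ℝ} (h0 : 0 ≤ s) (hst : s ≤ t) (h1 : t ≤ 1) : GG t ≤ GG s := by
  unfold GG
  have h2 := LL_anti h0 hst h1
  have h3 := qq_upper
  nlinarith

theorem GG_strict {s t : ℝ} (h0 : 0 ≤ s) (hst : s < t) (h1 : t ≤ 1) : GG t < GG s := by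
  unfold GG
  have h2 := LL_strict h0 hst h1
  have h3 := qq_upper
  nlinarith

theorem GG_le_mm {s : ℝ} (h0 : 0 ≤ s) (h1 : s ≤ 1) : GG s ≤ mm := by
  rw [← GG_zero]; exact GG_anti le_rfl h0 h1

theorem GG_lower {s : ℝ} (h0 : 0 ≤ s) (h1 : s ≤ 1) : 1 / 2 ≤ GG s := by
  have := half_le_LL h0 h1
  have h3 := qq_upper
  unfold GG
  nlinarith

theorem GG_upper_pos {s t : ℝ} (h0 : 0 < s) (hst : s ≤ t) (h1 : t ≤ 1) (j : ℕ) :
    GG s - GG t ≤ (t - s) + 2 * (ww j * xx j) * (t - s) + ww j * (1 / (xx (j + 1) * s)) := by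
  have h2 := LL_upper_pos h0 hst h1 j
  have h3 := qq_lower
  unfold GG
  nlinarith

theorem GG_upper_zero {t : ℝ} (h0 : 0 ≤ t) (h1 : t ≤ 1) (j : ℕ) :
    mm - GG t ≤ t + 2 * (ww j * xx j) * t + ww j := by
  have h2 := LL_upper_zero h0 h1 j
  have h3 := qq_lower
  unfold GG mm
  nlinarith

theorem GG_gap {s : ℝ} (h0 : 0 < s) (h1 : s ≤ 1) (j : ℕ) (hj : 2 ≤ s * xx (j + 1)) :
    ww j / 4 ≤ mm - GG s := by
  have h2 := LL_gap h0 h1 j hj
  have h3 := qq_upper
  unfold GG mm
  nlinarith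

theorem FF_lac {s : ℝ} (h0 : 0 ≤ s) (h1 : s ≤ 1) : FF lac s = s * GG s := by
  have h2 := FF_eq lac h0 h1
  rw [lac_sum] at h2
  have h3 : ∀ j, cc j * ENNReal.ofReal (1 - (1 - s) ^ xx j) =
      ENNReal.ofReal (s * (ww j * aj j s)) := by
    intro j
    unfold cc aj
    rw [← AK_mul, ← ENNReal.ofReal_mul (div_nonneg (ww_pos j).le (xx_pos j).le)]
    congr 1
    ring
  simp only [h3] at h2
  have hq := qq_upper
  have h5 : 0 ≤ 1 - (1 - s) ^ 2 := by nlinarith
  have h6 : 0 ≤ LL s := by linarith [half_le_LL h0 h1]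
  rw [← ENNReal.ofReal_tsum_of_nonneg (fun j => mul_nonneg h0
    (mul_nonneg (ww_pos j).le (aj_nonneg j h1))) ((summable_LL h0 h1).mul_left s),
    tsum_mul_left, ← ENNReal.ofReal_mul (by linarith)] at h2
  have h7 : (∑' j, ww j * aj j s) = LL s := rfl
  rw [h7, ← ENNReal.ofReal_add (mul_nonneg (by linarith) h5) (mul_nonneg h0 h6)] at h2
  have h8 : (1 - qq) * (1 - (1 - s) ^ 2) + s * LL s = s * GG s := by
    unfold GG; ring
  rw [h8] at h2
  have h4 : 0 ≤ s * GG s := mul_nonneg h0 (by have := GG_lower h0 h1; linarith)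
  exact ((ENNReal.ofReal_eq_ofReal_iff h4 (FF_nonneg lac h0 h1)).1 h2).symm

/-- the parameter belonging to `s` -/
noncomputable def HH (s : ℝ) : ℝ := 1 / GG s

/-- on the curve -/
theorem curve {s : ℝ} (h0 : 0 < s) (h1 : s ≤ 1 / 3) (hG1 : 1 ≤ GG s) :
    HH s * ga lac (HH s) = s := by
  have hs1 : s ≤ 1 := by linarith
  have hGpos : 0 < GG s := by linarith
  have hH0 : 0 < HH s := by unfold HH; positivity
  have hH1 : HH s ≤ 1 := by unfold HH; rw [div_le_one hGpos]; exact hG1
  set p : unitInterval := ⟨HH s, hH0.le, hH1⟩ with hp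
  have hHG : HH s * GG s = 1 := by unfold HH; field_simp
  have hFle : s * GG s ≤ 1 := by
    have := GG_le_mm h0.le hs1
    have := mm_upper
    nlinarith
  have hpt : (p : ℝ) * (s * GG s) = s := by
    show HH s * (s * GG s) = s
    calc HH s * (s * GG s) = s * (HH s * GG s) := by ring
      _ = s := by rw [hHG, mul_one]
  have h2 : s * GG s ≤ ga lac p := by
    refine le_ga lac p (by positivity) hFle ?_
    rw [hpt, FF_lac h0.le hs1]
  have h3 := ga_fixed lac p
  set g := ga lac p with hg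
  have hgpos : 0 < g := lt_of_lt_of_le (by positivity) h2
  have hg1 : g ≤ 1 := ga_le_one lac p
  have hp0 : (0 : ℝ) < p := hH0
  have hp1 : (p : ℝ) ≤ 1 := hH1
  have hs'0 : 0 < (p : ℝ) * g := by positivity
  have hs'1 : (p : ℝ) * g ≤ 1 := mul_le_one₀ hp1 hgpos.le hg1
  rw [FF_lac hs'0.le hs'1] at h3
  have h4 : (p : ℝ) * GG (p * g) = 1 := by
    have h5 : g * (p * GG (p * g)) = g * 1 := by rw [mul_one]; nlinarith
    exact mul_left_cancel₀ hgpos.ne' h5
  have h6 : GG (p * g) = GG s := by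
    have h7 : (p : ℝ) * GG (p * g) = p * GG s := by rw [h4]; exact hHG.symm
    exact mul_left_cancel₀ hp0.ne' h7
  show (p : ℝ) * g = s
  rcases lt_trichotomy ((p : ℝ) * g) s with h | h | h
  · have := GG_strict hs'0.le h hs1
    linarith
  · exact h
  · have := GG_strict h0.le h hs'1
    linarith

theorem pow_le_xx (k j : ℕ) : 2 ^ (k * j) ≤ 2 ^ (k * k) * xx j := by
  unfold xx
  rw [← pow_add]
  refine Nat.pow_le_pow_right (by norm_num) ?_
  rcases le_total j k with h | h
  · have : k * j ≤ k * k := Nat.mul_le_mul_left k h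
    exact this.trans (Nat.le_add_right _ _)
  · have h1 : k * j ≤ j * j := Nat.mul_le_mul_right j h
    have h2 : j < 2 ^ j := Nat.lt_pow_self (by norm_num)
    have h3 : j * j ≤ 2 ^ j * 2 ^ j := Nat.mul_le_mul h2.le h2.le
    have h4 : 2 ^ j * 2 ^ j ≤ 32 ^ j := by
      rw [← mul_pow]; exact Nat.pow_le_pow_left (by norm_num) j
    exact (h1.trans (h3.trans h4)).trans (Nat.le_add_left _ _)

/-- the survival function is very small near criticality -/
theorem ga_flat (k : ℕ) {p : ℝ} (hp0 : 1 / mm < p) (hp1 : p ≤ 1) :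
    ga lac p ≤ 6 * (2 : ℝ) ^ (k * k) * (36 * (p - 1 / mm)) ^ k := by
  have hm1 := mm_lower
  have hm2 := mm_upper
  have hmm0 : 0 < mm := by linarith
  have hp3 : 1 / 3 < p := by
    refine lt_of_le_of_lt ?_ hp0
    exact one_div_le_one_div_of_le hmm0 hm2
  set q : unitInterval := ⟨p, by linarith, hp1⟩ with hq
  have h3 := ga_fixed lac q
  have hg0 : 0 ≤ ga lac q := ga_nonneg lac q
  have hg1 : ga lac q ≤ 1 := ga_le_one lac q
  have hqp : (q : ℝ) = p := rfl
  rw [hqp] at h3 hg0 hg1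
  set g := ga lac p with hg
  rcases hg0.eq_or_lt with h | hgpos
  · rw [← h]
    have : 0 < p - 1 / mm := by linarith
    positivity
  set s := p * g with hs
  have hp0' : 0 < p := by linarith
  have hs0 : 0 < s := by positivity
  have hs1 : s ≤ 1 := mul_le_one₀ hp1 hgpos.le hg1
  rw [FF_lac hs0.le hs1] at h3
  have h4 : p * GG s = 1 := by
    have h5 : g * (p * GG s) = g * 1 := by rw [mul_one]; nlinarith
    exact mul_left_cancel₀ hgpos.ne' h5
  have hex : ∃ j, 2 ≤ s * xx (j + 1) := by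
    obtain ⟨j, hj⟩ := exists_nat_ge (2 / s)
    refine ⟨j, ?_⟩
    rw [div_le_iff₀ hs0] at hj
    have h6 : (j : ℝ) ≤ xx (j + 1) := by
      have := (le_xx (j + 1))
      exact_mod_cast (by omega : j ≤ xx (j + 1))
    nlinarith
  classical
  obtain ⟨j, hj1, hj2⟩ : ∃ j, 2 ≤ s * xx (j + 1) ∧ s * xx j ≤ 2 := by
    refine ⟨Nat.find hex, Nat.find_spec hex, ?_⟩
    rcases Nat.eq_zero_or_pos (Nat.find hex) with h | h
    · rw [h, xx_zero]
      push_cast
      linarith
    · obtain ⟨m, hm⟩ : ∃ m, Nat.find hex = m + 1 := ⟨Nat.find hex - 1, by omega⟩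
      have := Nat.find_min hex (m := m) (by omega)
      rw [hm]
      push Not at this
      exact this.le
  have h5 := GG_gap hs0 hs1 j hj1
  have hG2 := GG_le_mm hs0.le hs1
  have hw := ww_pos j
  -- eps
  have h6 : ww j ≤ 36 * (p - 1 / mm) := by
    have hm : 1 / mm * mm = 1 := one_div_mul_cancel hmm0.ne'
    have h7 : mm * (p - 1 / mm) = p * (mm - GG s) := by
      have : p * (mm - GG s) = p * mm - 1 := by rw [mul_sub, h4]
      rw [this]
      linarith
    have h8 : ww j / 12 ≤ mm * (p - 1 / mm) := by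
      rw [h7]
      nlinarith
    have h9 : 0 < p - 1 / mm := by linarith
    nlinarith
  have h7 : s ≤ 2 * (2 : ℝ) ^ (k * k) * ww j ^ k := by
    have h8 : (2 : ℝ) ^ (k * j) ≤ 2 ^ (k * k) * xx j := by exact_mod_cast pow_le_xx k j
    have h9 : ww j ^ k * 2 ^ (k * j) = 1 := by
      unfold ww
      rw [← pow_mul, mul_comm j k, ← mul_pow]
      norm_num
    have h11 : (0 : ℝ) < 2 ^ (k * j) := by positivity
    refine le_of_mul_le_mul_right ?_ h11
    calc s * 2 ^ (k * j) ≤ s * (2 ^ (k * k) * xx j) := by gcongr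
      _ = 2 ^ (k * k) * (s * xx j) := by ring
      _ ≤ 2 ^ (k * k) * 2 := by gcongr
      _ = 2 ^ (k * k) * 2 * (ww j ^ k * 2 ^ (k * j)) := by rw [h9, mul_one]
      _ = 2 * 2 ^ (k * k) * ww j ^ k * 2 ^ (k * j) := by ring
  have h8 : ww j ^ k ≤ (36 * (p - 1 / mm)) ^ k := pow_le_pow_left₀ hw.le h6 k
  have h9 : g ≤ 3 * s := by
    rw [hs]
    nlinarith
  calc g ≤ 3 * s := h9
    _ ≤ 3 * (2 * (2 : ℝ) ^ (k * k) * ww j ^ k) := by gcongr
    _ ≤ 3 * (2 * (2 : ℝ) ^ (k * k) * (36 * (p - 1 / mm)) ^ k) := by gcongr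
    _ = _ := by ring

end Pool.Agent.H99.GQ
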