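import Pool.Agent.H99.GQ.Defs

set_option autoImplicit false

/-!
# Product measures: zipping, splitting at the root, independence of subtrees

The lemmas are those of the library file `X136/GT/Meas`.
-/

namespace Pool.Agent.H99.GQ

open MeasureTheory ProbabilityTheory

section zip

variable {ι E F : Type*} [MeasurableSpace E] [MeasurableSpace F] (μ : Measure E)
  [IsProbabilityMeasure μ] (ν : Measure F) [IsProbabilityMeasure ν]

/-- the family of pairs -/
def zip (z : (ι → E) × (ι → F)) : ι → E × F := fun j => (z.1 j, z.2 j)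

omit [MeasurableSpace E] [MeasurableSpace F] in
theorem zip_apply (z : (ι → E) × (ι → F)) (j : ι) : zip z j = (z.1 j, z.2 j) := rfl

theorem measurable_zip : Measurable (zip : (ι → E) × (ι → F) → ι → E × F) := by
  refine measurable_pi_lambda _ fun j => ?_
  unfold zip
  fun_prop

theorem map_zip : Measure.map zip ((Measure.infinitePi fun _ : ι => μ).prod
    (Measure.infinitePi fun _ : ι => ν)) = Measure.infinitePi fun _ : ι => μ.prod ν := by
  refine Measure.eq_infinitePi _ fun s t ht => ?_
  have hm : MeasurableSet ((zip : (ι → E) × (ι → F) → ι → E × F) ⁻¹' ((s : Set ι).pi t)) :=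
    measurable_zip (.pi s.countable_toSet fun _ _ => ht _)
  rw [Measure.map_apply measurable_zip (.pi s.countable_toSet fun _ _ => ht _),
    Measure.prod_apply hm]
  have h1 : ∀ x : ι → E, (Measure.infinitePi fun _ : ι => ν)
      (Prod.mk x ⁻¹' (zip ⁻¹' ((s : Set ι).pi t))) = ∏ i ∈ s, ν (Prod.mk (x i) ⁻¹' t i) := by
    intro x
    rw [← Measure.infinitePi_pi (fun _ : ι => ν) (s := s) (t := fun i => Prod.mk (x i) ⁻¹' t i)
      (fun i _ => measurable_prodMk_left (ht i))]
    rfl
  simp only [h1]
  have h2 : ∀ i, Measurable fun a : E => ν (Prod.mk a ⁻¹' t i) := fun i =>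
    measurable_measure_prodMk_left (ht i)
  have hind : ProbabilityTheory.iIndepFun (fun (i : ι) (x : ι → E) => ν (Prod.mk (x i) ⁻¹' t i))
      (Measure.infinitePi fun _ : ι => μ) := by
    have := ProbabilityTheory.iIndepFun_infinitePi (P := fun _ : ι => μ)
      (X := fun (i : ι) (a : E) => ν (Prod.mk a ⁻¹' t i)) h2
    exact this
  rw [ProbabilityTheory.lintegral_prod_eq_prod_lintegral_of_indepFun s
    (fun i (x : ι → E) => ν (Prod.mk (x i) ⁻¹' t i)) hind
    (fun i => (h2 i).comp (measurable_pi_apply i))]
  refine Finset.prod_congr rfl fun i _ => ?_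
  rw [Measure.prod_apply (ht i)]
  exact (measurePreserving_eval_infinitePi (fun _ : ι => μ) i).lintegral_comp (h2 i)

end zip

section split

variable {κ₁ κ₂ ι α : Type*} [MeasurableSpace α] (μ : Measure α) [IsProbabilityMeasure μ]

/-- join two families -/
def join2 (p : (κ₁ → α) × (κ₂ → α)) : κ₁ ⊕ κ₂ → α := Sum.elim p.1 p.2

lemma measurable_join2 : Measurable (join2 (κ₁ := κ₁) (κ₂ := κ₂) (α := α)) := by
  rw [measurable_pi_iff]
  rintro (k | k)
  · exact (measurable_pi_apply k).comp measurable_fst
  · exact (measurable_pi_apply k).comp measurable_snd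

lemma map_join2 :
    ((Measure.infinitePi fun _ : κ₁ => μ).prod (Measure.infinitePi fun _ : κ₂ => μ)).map join2 =
      Measure.infinitePi fun _ : κ₁ ⊕ κ₂ => μ := by
  apply Measure.eq_infinitePi
  intro s t ht
  rw [Measure.map_apply measurable_join2 (.pi s.countable_toSet fun _ _ => ht _)]
  have h1 : (join2 ⁻¹' (Set.pi s t) : Set ((κ₁ → α) × (κ₂ → α))) =
      (Set.pi s.toLeft fun k => t (Sum.inl k)) ×ˢ (Set.pi s.toRight fun k => t (Sum.inr k)) := by
    ext p
    constructor
    · intro h
      constructor
      · intro k hk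
        exact h (Sum.inl k) (by simpa using hk)
      · intro k hk
        exact h (Sum.inr k) (by simpa using hk)
    · rintro ⟨h2, h3⟩ o ho
      rcases o with k | k
      · exact h2 k (by simpa using ho)
      · exact h3 k (by simpa using ho)
  rw [h1, Measure.prod_prod, Measure.infinitePi_pi _ (fun k _ => ht _),
    Measure.infinitePi_pi _ (fun k _ => ht _)]
  conv_rhs => rw [← Finset.toLeft_disjSum_toRight (u := s)]
  rw [Finset.prod_disjSum]

/-- split a family -/
lemma mp_split2 (f : κ₁ ⊕ κ₂ → ι) (hf : Function.Injective f) :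
    MeasurePreserving (fun ω : ι → α =>
        ((fun k : κ₁ => ω (f (Sum.inl k))), (fun k : κ₂ => ω (f (Sum.inr k)))))
      (Measure.infinitePi fun _ : ι => μ) ((Measure.infinitePi fun _ : κ₁ => μ).prod
        (Measure.infinitePi fun _ : κ₂ => μ)) := by
  have hm : Measurable (fun ω : ι → α =>
      ((fun k : κ₁ => ω (f (Sum.inl k))), (fun k : κ₂ => ω (f (Sum.inr k))))) := by
    fun_prop
  refine ⟨hm, ?_⟩
  have h1 := Measure.map_infinitePi_infinitePi_of_inj (P := fun _ : ι => μ) hf
  have hg : Measurable (fun ω : κ₁ ⊕ κ₂ → α =>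
      ((fun k : κ₁ => ω (Sum.inl k)), (fun k : κ₂ => ω (Sum.inr k)))) := by
    fun_prop
  have h2 : (fun ω : ι → α =>
      ((fun k : κ₁ => ω (f (Sum.inl k))), (fun k : κ₂ => ω (f (Sum.inr k))))) =
      (fun ω : κ₁ ⊕ κ₂ → α =>
      ((fun k : κ₁ => ω (Sum.inl k)), (fun k : κ₂ => ω (Sum.inr k)))) ∘ (fun ω i => ω (f i)) := rfl
  rw [h2, ← Measure.map_map hg (by fun_prop), h1, ← map_join2 μ,
    Measure.map_map hg measurable_join2]
  exact Measure.map_id

end split

/-! ### words -/

section words

variable {E : Type*} [MeasurableSpace E] (m : Measure E) [IsProbabilityMeasure m]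

/-- the product law on words -/
noncomputable abbrev PW : Measure (List ℕ → E) := Measure.infinitePi fun _ : List ℕ => m

/-- the family seen from the vertex `u` -/
def shift (u : List ℕ) (ω : List ℕ → E) : List ℕ → E := fun v => ω (v ++ u)

theorem measurable_shift (u : List ℕ) : Measurable (shift u : (List ℕ → E) → List ℕ → E) := by
  refine measurable_pi_lambda _ fun v => ?_
  exact measurable_pi_apply _

/-- splitting at the root -/
theorem mp_root : MeasurePreserving
    (fun ω : List ℕ → E => (ω [], fun i : ℕ => shift [i] ω)) (PW m)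
    (m.prod (Measure.infinitePi fun _ : ℕ => PW m)) := by
  have h1 := mp_split2 m (κ₁ := Unit) (κ₂ := ℕ × List ℕ) (ι := List ℕ)
    (fun o => Sum.elim (fun _ => ([] : List ℕ)) (fun q => q.2 ++ [q.1]) o) (by
      rintro (_ | a) (_ | b) h
      · rfl
      · simp at h
      · simp at h
      · simp only [Sum.elim_inr] at h
        obtain ⟨h1, h2⟩ := List.append_inj' h rfl
        have h3 : a.1 = b.1 := by simpa using h2
        exact congrArg Sum.inr (Prod.ext h3 h1))
  have h2 : MeasurePreserving (fun (Y : ℕ × List ℕ → E) (i : ℕ) (v : List ℕ) => Y (i, v))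
      (Measure.infinitePi fun _ : ℕ × List ℕ => m) (Measure.infinitePi fun _ : ℕ => PW m) := by
    refine ⟨by fun_prop, ?_⟩
    exact Measure.infinitePi_map_curry (fun (_ : ℕ) (_ : List ℕ) => m)
  have h3 := (measurePreserving_eval_infinitePi (fun _ : Unit => m) ()).prod h2
  exact h3.comp h1

theorem shift_preserving (u : List ℕ) : MeasurePreserving (shift u) (PW m) (PW m) := by
  refine ⟨measurable_shift u, ?_⟩
  exact Measure.map_infinitePi_infinitePi_of_inj (P := fun _ : List ℕ => m)
    (f := fun v : List ℕ => v ++ u) (fun a b h => List.append_cancel_right h)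

end words

end Pool.Agent.H99.GQ
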