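import Pool.Agent.H99.GQ.Qu

set_option autoImplicit false

/-!
# Second moments of the quenched survival function, binary subtree sums
-/

namespace Pool.Agent.H99.GQ

open MeasureTheory ProbabilityTheory Filter Topology

theorem lintegral_pair {Ω : Type*} [MeasurableSpace Ω] (P : Measure Ω) [IsProbabilityMeasure P]
    {f : Ω → ENNReal} (hf : Measurable f) {i j : ℕ} (hij : i ≠ j) :
    ∫⁻ y : ℕ → Ω, f (y i) * f (y j) ∂(Measure.infinitePi fun _ : ℕ => P) =
      (∫⁻ x, f x ∂P) ^ 2 := by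
  have h1 := Measure.infinitePi_map_eval_prod (P := fun _ : ℕ => P) hij
  have hg : Measurable fun q : Ω × Ω => f q.1 * f q.2 :=
    (hf.comp measurable_fst).mul (hf.comp measurable_snd)
  have hm : Measurable fun ω : ℕ → Ω => (ω i, ω j) := by fun_prop
  have h2 := lintegral_map (μ := Measure.infinitePi fun _ : ℕ => P) hg hm
  rw [h1] at h2
  rw [← h2, lintegral_prod_mul hf.aemeasurable hf.aemeasurable, sq]

theorem lintegral_diag {Ω : Type*} [MeasurableSpace Ω] (P : Measure Ω) [IsProbabilityMeasure P]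
    {f : Ω → ENNReal} (hf : Measurable f) (i : ℕ) :
    ∫⁻ y : ℕ → Ω, f (y i) * f (y i) ∂(Measure.infinitePi fun _ : ℕ => P) =
      ∫⁻ x, f x ^ 2 ∂P := by
  have h := (measurePreserving_eval_infinitePi (fun _ : ℕ => P) i).lintegral_comp (hf.pow_const 2)
  rw [← h]
  refine lintegral_congr fun y => ?_
  rw [sq]

theorem lintegral_sq_sum {Ω : Type*} [MeasurableSpace Ω] (P : Measure Ω) [IsProbabilityMeasure P]
    {f : Ω → ENNReal} (hf : Measurable f) (k : ℕ) :
    ∫⁻ y : ℕ → Ω, (∑ i ∈ Finset.range k, f (y i)) ^ 2 ∂(Measure.infinitePi fun _ : ℕ => P) ≤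
      k * ∫⁻ x, f x ^ 2 ∂P + (k : ENNReal) ^ 2 * (∫⁻ x, f x ∂P) ^ 2 := by
  classical
  have hfi : ∀ i : ℕ, Measurable fun y : ℕ → Ω => f (y i) := fun i =>
    hf.comp (measurable_pi_apply i)
  have e : ∀ y : ℕ → Ω, (∑ i ∈ Finset.range k, f (y i)) ^ 2 =
      ∑ i ∈ Finset.range k, ∑ j ∈ Finset.range k, f (y i) * f (y j) := by
    intro y; rw [sq, Finset.sum_mul_sum]
  simp only [e]
  have hij : ∀ i j : ℕ, Measurable fun y : ℕ → Ω => f (y i) * f (y j) := fun i j =>
    (hfi i).mul (hfi j)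
  have hs : ∀ i : ℕ, Measurable fun y : ℕ → Ω => ∑ j ∈ Finset.range k, f (y i) * f (y j) :=
    fun i => Finset.measurable_fun_sum _ fun j _ => hij i j
  rw [lintegral_finsetSum _ fun i _ => hs i]
  have h1 : ∀ i ∈ Finset.range k, ∫⁻ y : ℕ → Ω, ∑ j ∈ Finset.range k, f (y i) * f (y j)
      ∂(Measure.infinitePi fun _ : ℕ => P) ≤
      ∫⁻ x, f x ^ 2 ∂P + (k : ENNReal) * (∫⁻ x, f x ∂P) ^ 2 := by
    intro i hi
    rw [lintegral_finsetSum _ fun j _ => hij i j,
      ← Finset.add_sum_erase _ _ hi, lintegral_diag P hf i]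
    gcongr
    calc ∑ j ∈ (Finset.range k).erase i, ∫⁻ y : ℕ → Ω, f (y i) * f (y j)
          ∂(Measure.infinitePi fun _ : ℕ => P)
        = ∑ j ∈ (Finset.range k).erase i, (∫⁻ x, f x ∂P) ^ 2 := by
          refine Finset.sum_congr rfl fun j hj => ?_
          exact lintegral_pair P hf (Finset.ne_of_mem_erase hj).symm
      _ ≤ ∑ j ∈ Finset.range k, (∫⁻ x, f x ∂P) ^ 2 :=
          Finset.sum_le_sum_of_subset (Finset.erase_subset _ _)
      _ = _ := by rw [Finset.sum_const, Finset.card_range, nsmul_eq_mul]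
  refine (Finset.sum_le_sum h1).trans (le_of_eq ?_)
  rw [Finset.sum_const, Finset.card_range, nsmul_eq_mul]
  ring

/-- the truncated second moment bound for the quenched survival function -/
theorem second_moment (ν : PMF ℕ) (p : unitInterval) (N : ℕ) :
    ∫⁻ Z, gq Z p ^ 2 ∂GW ν ≤
      ENNReal.ofReal p ^ 2 * ((∑' k, ν k * (k : ENNReal)) * (∫⁻ Z, gq Z p ^ 2 ∂GW ν) +
        (∑' k, ν k * (if k ≤ N then (k : ENNReal) ^ 2 else 0)) * (∫⁻ Z, gq Z p ∂GW ν) ^ 2) +
      ∑' k, ν k * (if k ≤ N then 0 else 1) := by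
  set b := ∫⁻ Z, gq Z p ^ 2 ∂GW ν with hb
  set a := ∫⁻ Z, gq Z p ∂GW ν with ha
  set F : ℕ × (ℕ → Env) → ENNReal := fun q =>
    if q.1 ≤ N then (ENNReal.ofReal p * ∑ i ∈ Finset.range q.1, gq (q.2 i) p) ^ 2 else 1 with hF
  have hgi : ∀ i : ℕ, Measurable fun y : ℕ → Env => gq (y i) p := fun i =>
    (measurable_gq p).comp (measurable_pi_apply i)
  have hFm : Measurable F := by
    refine measurable_from_prod_countable_right fun k => ?_
    simp only [hF]
    by_cases hk : k ≤ N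
    · simp only [hk, if_true]
      exact ((Finset.measurable_fun_sum _ fun i _ => hgi i).const_mul _).pow_const 2
    · simp only [hk, if_false]
      exact measurable_const
  have h1 : b ≤ ∫⁻ Z : Env, F (Z [], fun i : ℕ => shift [i] Z) ∂GW ν := by
    refine lintegral_mono fun Z => ?_
    simp only [hF]
    split_ifs with h
    · exact pow_le_pow_left₀ (zero_le) (gq_le Z p) 2
    · exact pow_le_one₀ (zero_le) (gq_le_one Z p)
  have h2 : ∫⁻ Z : Env, F (Z [], fun i : ℕ => shift [i] Z) ∂GW ν =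
      ∫⁻ q, F q ∂(ν.toMeasure.prod (Measure.infinitePi fun _ : ℕ => GW ν)) :=
    (mp_root ν.toMeasure).lintegral_comp hFm
  rw [h2, lintegral_prod _ hFm.aemeasurable, lintegral_countable'] at h1
  refine h1.trans ?_
  have h3 : ∀ k : ℕ, (∫⁻ y, F (k, y) ∂(Measure.infinitePi fun _ : ℕ => GW ν)) *
      ν.toMeasure {k} ≤ ENNReal.ofReal p ^ 2 * ((ν k * k) * b +
        (ν k * (if k ≤ N then (k : ENNReal) ^ 2 else 0)) * a ^ 2) +
        ν k * (if k ≤ N then 0 else 1) := by
    intro k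
    rw [PMF.toMeasure_apply_singleton _ _ (measurableSet_singleton k)]
    by_cases hk : k ≤ N
    · simp only [hF, hk, if_true, mul_zero, add_zero]
      have e : ∀ y : ℕ → Env, (ENNReal.ofReal p * ∑ i ∈ Finset.range k, gq (y i) p) ^ 2 =
          ENNReal.ofReal p ^ 2 * (∑ i ∈ Finset.range k, gq (y i) p) ^ 2 := fun y => by
        rw [mul_pow]
      simp only [e]
      rw [lintegral_const_mul _ ((Finset.measurable_fun_sum _ fun i _ => hgi i).pow_const 2)]
      have h4 := lintegral_sq_sum (GW ν) (measurable_gq p) k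
      calc ENNReal.ofReal p ^ 2 * (∫⁻ y : ℕ → Env, (∑ i ∈ Finset.range k, gq (y i) p) ^ 2
            ∂(Measure.infinitePi fun _ : ℕ => GW ν)) * ν k
          ≤ ENNReal.ofReal p ^ 2 * (k * b + (k : ENNReal) ^ 2 * a ^ 2) * ν k := by
            gcongr
        _ = _ := by ring
    · simp only [hF, hk, if_false, mul_one]
      rw [lintegral_one, measure_univ, one_mul]
      exact le_add_self
  refine (ENNReal.tsum_le_tsum h3).trans (le_of_eq ?_)
  rw [ENNReal.tsum_add, ENNReal.tsum_mul_left, ENNReal.tsum_add, ENNReal.tsum_mul_right,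
    ENNReal.tsum_mul_right]

/-! ### sums over the binary subtree -/

/-- the sum of the quenched survival functions over the binary words of length `k` -/
noncomputable def SS (p : unitInterval) : ℕ → Env → ℝ
  | 0, Z => gx p Z
  | k + 1, Z => SS p k (shift [0] Z) + SS p k (shift [1] Z)

theorem measurable_SS (p : unitInterval) (k : ℕ) : Measurable (SS p k) := by
  induction k with
  | zero => exact measurable_gx p
  | succ k ih =>
    exact (ih.comp (measurable_shift [0])).add (ih.comp (measurable_shift [1]))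

theorem SS_nonneg (p : unitInterval) (k : ℕ) (Z : Env) : 0 ≤ SS p k Z := by
  induction k generalizing Z with
  | zero => exact gx_nonneg p Z
  | succ k ih => exact add_nonneg (ih _) (ih _)

theorem SS_le (p : unitInterval) (k : ℕ) (Z : Env) : SS p k Z ≤ 2 ^ k := by
  induction k generalizing Z with
  | zero => rw [pow_zero]; exact gx_le_one p Z
  | succ k ih =>
    have h1 := ih (shift [0] Z)
    have h2 := ih (shift [1] Z)
    show SS p k (shift [0] Z) + SS p k (shift [1] Z) ≤ 2 ^ (k + 1)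
    rw [pow_succ]
    linarith

/-- deterministic lower bound -/
theorem gx_lower (p : unitInterval) (hp : (p : ℝ) ≤ 1 / 2) (k : ℕ) (Z : Env)
    (hZ : ∀ u, 2 ≤ Z u) : (p : ℝ) ^ k * SS p k Z - k * SS p k Z ^ 2 ≤ gx p Z := by
  induction k generalizing Z with
  | zero =>
    show (p : ℝ) ^ 0 * gx p Z - ((0 : ℕ) : ℝ) * _ ≤ gx p Z
    simp
  | succ k ih =>
    have h0 := ih (shift [0] Z) fun u => hZ _
    have h1 := ih (shift [1] Z) fun u => hZ _
    have h2 := gx_ge Z p (hZ [])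
    have hp0 := p.2.1
    set x := gx p (shift [0] Z) with hx
    set y := gx p (shift [1] Z) with hy
    have hx0 : 0 ≤ x := gx_nonneg _ _
    have hy0 : 0 ≤ y := gx_nonneg _ _
    have hx1 : x ≤ 1 := gx_le_one _ _
    have hy1 : y ≤ 1 := gx_le_one _ _
    have hU0 := SS_nonneg p k (shift [0] Z)
    have hV0 := SS_nonneg p k (shift [1] Z)
    set U := SS p k (shift [0] Z) with hU
    set V := SS p k (shift [1] Z) with hV
    show (p : ℝ) ^ (k + 1) * (U + V) - ((k + 1 : ℕ) : ℝ) * (U + V) ^ 2 ≤ gx p Z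
    -- p x + p y - p^2 x y
    set T := (p : ℝ) * (x + y) with hT
    have hT1 : T ≤ 1 := by nlinarith
    have hT0 : 0 ≤ T := by positivity
    have h3 : T - T ^ 2 / 2 ≤ gx p Z := by
      have : 0 ≤ (p : ℝ) ^ 2 * (x ^ 2 + y ^ 2) := by positivity
      nlinarith
    set S := (p : ℝ) ^ (k + 1) * (U + V) - k * (U + V) ^ 2 with hS
    have hpk : 0 ≤ (p : ℝ) ^ k := pow_nonneg hp0 k
    have hk0 : (0 : ℝ) ≤ k := Nat.cast_nonneg k
    have h4 : S ≤ T := by
      have h5 : (p : ℝ) * ((p : ℝ) ^ k * U - k * U ^ 2 + ((p : ℝ) ^ k * V - k * V ^ 2)) ≤ T := by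
        rw [hT]
        exact mul_le_mul_of_nonneg_left (add_le_add h0 h1) hp0
      refine le_trans ?_ h5
      have h6 : (p : ℝ) * (k * U ^ 2 + k * V ^ 2) ≤ k * (U + V) ^ 2 := by
        have h7 : (k : ℝ) * U ^ 2 + k * V ^ 2 ≤ k * (U + V) ^ 2 := by
          have : 0 ≤ (k : ℝ) * (U * V) := by positivity
          nlinarith
        have h8 : 0 ≤ (k : ℝ) * U ^ 2 + k * V ^ 2 := by positivity
        nlinarith
      rw [hS, pow_succ]
      nlinarith
    have hpk1 : (p : ℝ) ^ (k + 1) ≤ 1 := pow_le_one₀ hp0 p.2.2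
    have h9 : S ≤ U + V := by
      have h10 : (p : ℝ) ^ (k + 1) * (U + V) ≤ 1 * (U + V) := by
        gcongr
      have h11 : 0 ≤ (k : ℝ) * (U + V) ^ 2 := by positivity
      linarith
    push_cast
    rcases le_total S 0 with hS0 | hS0
    · have h12 : 0 ≤ (U + V) ^ 2 := by positivity
      have h13 := gx_nonneg p Z
      have : (p : ℝ) ^ (k + 1) * (U + V) - (k + 1) * (U + V) ^ 2 = S - (U + V) ^ 2 := by
        rw [hS]; ring
      linarith
    · have h14 : S - S ^ 2 / 2 ≤ T - T ^ 2 / 2 := by nlinarith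
      have h15 : S ^ 2 ≤ (U + V) ^ 2 := pow_le_pow_left₀ hS0 h9 2
      have h16 : (p : ℝ) ^ (k + 1) * (U + V) - (k + 1) * (U + V) ^ 2 = S - (U + V) ^ 2 := by
        rw [hS]; ring
      rw [h16]
      nlinarith [sq_nonneg (U + V)]

theorem integrable_bdd {Ω : Type*} [MeasurableSpace Ω] (P : Measure Ω) [IsProbabilityMeasure P]
    {f : Ω → ℝ} (hf : Measurable f) {C : ℝ} (hC : ∀ x, |f x| ≤ C) : Integrable f P :=
  Integrable.of_bound hf.aestronglyMeasurable C (Eventually.of_forall hC)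

theorem integrable_SS (ν : PMF ℕ) (p : unitInterval) (k : ℕ) : Integrable (SS p k) (GW ν) :=
  integrable_bdd _ (measurable_SS p k) (C := 2 ^ k) fun Z => by
    rw [abs_of_nonneg (SS_nonneg p k Z)]; exact SS_le p k Z

theorem integral_shift (ν : PMF ℕ) (u : List ℕ) {f : Env → ℝ} (hf : Measurable f) :
    ∫ Z, f (shift u Z) ∂GW ν = ∫ Z, f Z ∂GW ν := by
  have h1 := shift_preserving ν.toMeasure u
  have h2 := integral_map (μ := GW ν) (φ := shift u) (f := f)
    (measurable_shift u).aemeasurable (by exact hf.aestronglyMeasurable)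
  rw [← h2]
  show ∫ Z, f Z ∂Measure.map (shift u) (PW ν.toMeasure) = _
  rw [h1.map_eq]
  rfl

theorem integral_SS (ν : PMF ℕ) (p : unitInterval) (k : ℕ) :
    ∫ Z, SS p k Z ∂GW ν = 2 ^ k * ∫ Z, gx p Z ∂GW ν := by
  induction k with
  | zero => rw [pow_zero, one_mul]; rfl
  | succ k ih =>
    show ∫ Z, (SS p k (shift [0] Z) + SS p k (shift [1] Z)) ∂GW ν = _
    have hi : ∀ u, Integrable (fun Z => SS p k (shift u Z)) (GW ν) := fun u =>
      integrable_bdd _ ((measurable_SS p k).comp (measurable_shift u)) (C := 2 ^ k) fun Z => by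
        rw [abs_of_nonneg (SS_nonneg p k _)]; exact SS_le p k _
    rw [integral_add (hi [0]) (hi [1]), integral_shift ν [0] (measurable_SS p k),
      integral_shift ν [1] (measurable_SS p k), ih, pow_succ]
    ring

theorem var_step (ν : PMF ℕ) {f : Env → ℝ} (hf : Measurable f) {C : ℝ} (hC : ∀ Z, |f Z| ≤ C)
    (h0 : ∫ Z, f Z ∂GW ν = 0) :
    ∫ Z, (f (shift [0] Z) + f (shift [1] Z)) ^ 2 ∂GW ν = 2 * ∫ Z, f Z ^ 2 ∂GW ν := by
  have hsq : ∀ Z, |f Z ^ 2| ≤ C ^ 2 := fun Z => by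
    rw [abs_pow]; exact pow_le_pow_left₀ (abs_nonneg _) (hC Z) 2
  have hi2 : ∀ u, Integrable (fun Z => f (shift u Z) ^ 2) (GW ν) := fun u =>
    integrable_bdd _ ((hf.comp (measurable_shift u)).pow_const 2) (C := C ^ 2) fun Z => hsq _
  have hix : Integrable (fun Z => 2 * (f (shift [0] Z) * f (shift [1] Z))) (GW ν) := by
    refine integrable_bdd _ (((hf.comp (measurable_shift [0])).mul
      (hf.comp (measurable_shift [1]))).const_mul 2) (C := 2 * (C * C)) fun Z => ?_
    rw [abs_mul, abs_mul, abs_of_pos (by norm_num : (0 : ℝ) < 2)]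
    have hC0 : 0 ≤ C := (abs_nonneg _).trans (hC Z)
    have := mul_le_mul (hC (shift [0] Z)) (hC (shift [1] Z)) (abs_nonneg _) hC0
    linarith
  have e : ∀ Z : Env, (f (shift [0] Z) + f (shift [1] Z)) ^ 2 =
      (f (shift [0] Z) ^ 2 + f (shift [1] Z) ^ 2) + 2 * (f (shift [0] Z) * f (shift [1] Z)) := by
    intro Z; ring
  simp only [e]
  have hi3 : Integrable (fun Z => f (shift [0] Z) ^ 2 + f (shift [1] Z) ^ 2) (GW ν) :=
    (hi2 [0]).add (hi2 [1])
  rw [integral_add hi3 hix, integral_add (hi2 [0]) (hi2 [1]),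
    integral_shift ν [0] (f := fun Z => f Z ^ 2) (hf.pow_const 2),
    integral_shift ν [1] (f := fun Z => f Z ^ 2) (hf.pow_const 2), integral_const_mul]
  have h1 := mp_pair ν.toMeasure
  have hg : Measurable fun q : Env × Env => f q.1 * f q.2 :=
    (hf.comp measurable_fst).mul (hf.comp measurable_snd)
  have h2 := integral_map (μ := GW ν) (φ := fun ω : Env => (shift [0] ω, shift [1] ω))
    (f := fun q : Env × Env => f q.1 * f q.2)
    ((measurable_shift [0]).prodMk (measurable_shift [1])).aemeasurable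
    (by exact hg.aestronglyMeasurable)
  have h3 : Measure.map (fun ω : Env => (shift [0] ω, shift [1] ω)) (GW ν) =
      (GW ν).prod (GW ν) := h1.map_eq
  rw [h3, integral_prod_mul, h0, zero_mul] at h2
  have h4 : ∫ Z, f (shift [0] Z) * f (shift [1] Z) ∂GW ν = 0 := h2.symm
  rw [h4]
  ring

/-- the variance of the sums -/
theorem var_SS (ν : PMF ℕ) (p : unitInterval) (k : ℕ) :
    ∫ Z, (SS p k Z - 2 ^ k * ∫ Z, gx p Z ∂GW ν) ^ 2 ∂GW ν =
      2 ^ k * ∫ Z, (gx p Z - ∫ Z, gx p Z ∂GW ν) ^ 2 ∂GW ν := by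
  set a := ∫ Z, gx p Z ∂GW ν with ha
  have ha0 : 0 ≤ a := integral_nonneg fun Z => gx_nonneg p Z
  induction k with
  | zero =>
    simp only [pow_zero, one_mul]
    rfl
  | succ k ih =>
    have h1 : ∀ Z : Env, (SS p (k + 1) Z - 2 ^ (k + 1) * a) ^ 2 =
        ((fun Z => SS p k Z - 2 ^ k * a) (shift [0] Z) +
          (fun Z => SS p k Z - 2 ^ k * a) (shift [1] Z)) ^ 2 := by
      intro Z
      show (SS p k (shift [0] Z) + SS p k (shift [1] Z) - 2 ^ (k + 1) * a) ^ 2 = _
      simp only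
      ring
    simp only [h1]
    have h2 := var_step ν (f := fun Z => SS p k Z - 2 ^ k * a)
      ((measurable_SS p k).sub_const _) (C := 2 ^ k + 2 ^ k * a) (fun Z => by
        have h3 := SS_nonneg p k Z
        have h4 := SS_le p k Z
        have h5 : 0 ≤ 2 ^ k * a := by positivity
        rw [abs_le]
        constructor <;> linarith) (by
        rw [integral_sub (integrable_SS ν p k) (integrable_const _), integral_SS]
        simp [ha])
    rw [h2, ih, pow_succ]
    ring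

theorem integral_gx (ν : PMF ℕ) (p : unitInterval) : ∫ Z, gx p Z ∂GW ν = ga ν p := by
  unfold gx
  rw [integral_toReal (measurable_gq p).aemeasurable
    (Eventually.of_forall fun Z => (gq_ne_top Z p).lt_top)]
  unfold ga
  rw [Set.projIcc_val]

theorem integral_gx_sq (ν : PMF ℕ) (p : unitInterval) :
    ENNReal.ofReal (∫ Z, gx p Z ^ 2 ∂GW ν) = ∫⁻ Z, gq Z p ^ 2 ∂GW ν := by
  rw [ofReal_integral_eq_lintegral_ofReal]
  · refine lintegral_congr fun Z => ?_
    unfold gx
    rw [← ENNReal.toReal_pow, ENNReal.ofReal_toReal (ENNReal.pow_ne_top (gq_ne_top Z p))]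
  · exact integrable_bdd _ ((measurable_gx p).pow_const 2) (C := 1) fun Z => by
      rw [abs_of_nonneg (sq_nonneg _)]
      exact pow_le_one₀ (gx_nonneg p Z) (gx_le_one p Z)
  · exact Eventually.of_forall fun Z => sq_nonneg _

theorem var_le (ν : PMF ℕ) (p : unitInterval) :
    ∫ Z, (gx p Z - ∫ Z, gx p Z ∂GW ν) ^ 2 ∂GW ν ≤ ∫ Z, gx p Z ^ 2 ∂GW ν := by
  set a := ∫ Z, gx p Z ∂GW ν with ha
  have hi : Integrable (gx p) (GW ν) := integrable_bdd _ (measurable_gx p) (C := 1) fun Z => by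
    rw [abs_of_nonneg (gx_nonneg p Z)]; exact gx_le_one p Z
  have hi2 : Integrable (fun Z => gx p Z ^ 2) (GW ν) :=
    integrable_bdd _ ((measurable_gx p).pow_const 2) (C := 1) fun Z => by
      rw [abs_of_nonneg (sq_nonneg _)]
      exact pow_le_one₀ (gx_nonneg p Z) (gx_le_one p Z)
  have e : ∀ Z, (gx p Z - a) ^ 2 = gx p Z ^ 2 - (2 * a) * gx p Z + a ^ 2 := fun Z => by ring
  simp only [e]
  have hi3 : Integrable (fun Z => 2 * a * gx p Z) (GW ν) := hi.const_mul _
  have hi4 : Integrable (fun Z => gx p Z ^ 2 - 2 * a * gx p Z) (GW ν) := hi2.sub hi3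
  rw [integral_add hi4 (integrable_const _),
    integral_sub hi2 hi3, integral_const_mul, integral_const]
  simp only [probReal_univ, one_smul]
  rw [← ha]
  nlinarith [sq_nonneg a]

/-- Chebyshev for the sums -/
theorem cheb (ν : PMF ℕ) (p : unitInterval) (k : ℕ) {B : ℝ} (ha : 0 < ga ν p)
    (hB : ∫ Z, gx p Z ^ 2 ∂GW ν ≤ B) :
    (GW ν).real {Z | SS p k Z ≤ 2 ^ k * ga ν p / 2} ≤ 4 * B / (2 ^ k * ga ν p ^ 2) := by
  set a := ga ν p with haa
  have h1 := var_SS ν p k
  have h2 := var_le ν p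
  rw [integral_gx] at h1 h2
  rw [← haa] at h1 h2
  have h3 : ∫ Z, (SS p k Z - 2 ^ k * a) ^ 2 ∂GW ν ≤ 2 ^ k * B := by
    rw [h1]
    exact mul_le_mul_of_nonneg_left (h2.trans hB) (by positivity)
  have h4 := mul_meas_ge_le_integral_of_nonneg (μ := GW ν)
    (f := fun Z => (SS p k Z - 2 ^ k * a) ^ 2) (Eventually.of_forall fun Z => sq_nonneg _)
    (integrable_bdd _ (((measurable_SS p k).sub_const _).pow_const 2)
      (C := (2 ^ k + 2 ^ k * a) ^ 2) fun Z => by
        have h3 := SS_nonneg p k Z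
        have h4 := SS_le p k Z
        have h5 : 0 ≤ 2 ^ k * a := by positivity
        rw [abs_pow]
        refine pow_le_pow_left₀ (abs_nonneg _) ?_ 2
        rw [abs_le]
        constructor <;> linarith) ((2 ^ k * a / 2) ^ 2)
  have h5 : {Z | SS p k Z ≤ 2 ^ k * a / 2} ⊆
      {Z | (2 ^ k * a / 2) ^ 2 ≤ (SS p k Z - 2 ^ k * a) ^ 2} := by
    intro Z hZ
    have hZ' : SS p k Z ≤ 2 ^ k * a / 2 := hZ
    have h6 : 0 ≤ 2 ^ k * a / 2 := by positivity
    show (2 ^ k * a / 2) ^ 2 ≤ (SS p k Z - 2 ^ k * a) ^ 2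
    have h7 : (SS p k Z - 2 ^ k * a) ^ 2 = (2 ^ k * a - SS p k Z) ^ 2 := by ring
    rw [h7]
    exact pow_le_pow_left₀ h6 (by linarith) 2
  have h6 : (GW ν).real {Z | SS p k Z ≤ 2 ^ k * a / 2} ≤
      (GW ν).real {Z | (2 ^ k * a / 2) ^ 2 ≤ (SS p k Z - 2 ^ k * a) ^ 2} :=
    measureReal_mono h5
  have h7 : (0 : ℝ) < 2 ^ k := by positivity
  rw [le_div_iff₀ (by positivity)]
  have h8 : (2 ^ k * a / 2) ^ 2 * (GW ν).real {Z | SS p k Z ≤ 2 ^ k * a / 2} ≤ 2 ^ k * B :=
    (mul_le_mul_of_nonneg_left h6 (by positivity)).trans (h4.trans h3)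
  have h9 : 2 ^ k * ((GW ν).real {Z | SS p k Z ≤ 2 ^ k * a / 2} * (2 ^ k * a ^ 2)) ≤
      2 ^ k * (4 * B) := by
    calc 2 ^ k * ((GW ν).real {Z | SS p k Z ≤ 2 ^ k * a / 2} * (2 ^ k * a ^ 2))
        = 4 * ((2 ^ k * a / 2) ^ 2 * (GW ν).real {Z | SS p k Z ≤ 2 ^ k * a / 2}) := by ring
      _ ≤ 4 * (2 ^ k * B) := by linarith
      _ = 2 ^ k * (4 * B) := by ring
  exact le_of_mul_le_mul_left h9 h7

/-- Markov for the sums -/
theorem mark (ν : PMF ℕ) (p : unitInterval) (k : ℕ) {M : ℝ} (hM : 0 < M) (ha : 0 < ga ν p) :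
    (GW ν).real {Z | M * (2 ^ k * ga ν p) ≤ SS p k Z} ≤ 1 / M := by
  have h4 := mul_meas_ge_le_integral_of_nonneg (μ := GW ν)
    (f := SS p k) (Eventually.of_forall fun Z => SS_nonneg p k Z)
    (integrable_SS ν p k) (M * (2 ^ k * ga ν p))
  rw [integral_SS, integral_gx] at h4
  have h5 : (0 : ℝ) < 2 ^ k * ga ν p := by positivity
  rw [le_div_iff₀ hM]
  have h6 : (2 ^ k * ga ν p) * ((GW ν).real {Z | M * (2 ^ k * ga ν p) ≤ SS p k Z} * M) ≤
      (2 ^ k * ga ν p) * 1 := by linarith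
  exact le_of_mul_le_mul_left h6 h5

end Pool.Agent.H99.GQ
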