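import Pool.Agent.H99.GQ.Rec

set_option autoImplicit false

/-!
# The quenched survival function: recursion, measurability, monotonicity
-/

namespace Pool.Agent.H99.GQ

open MeasureTheory ProbabilityTheory Filter Topology

instance (ν : PMF ℕ) : IsProbabilityMeasure (GW ν) := by unfold GW; infer_instance

instance (p : unitInterval) : IsProbabilityMeasure (bern p) := by unfold bern; infer_instance

/-- the event that the open cluster of the root is infinite -/
def BI (Z : Env) : Set (List ℕ → Bool) := {c | {u | OpenTo Z c u}.Infinite}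

/-- the same event, when the mark of the root is also open -/
def EI (Z : Env) : Set (List ℕ → Bool) := {c | c [] = true ∧ c ∈ BI Z}

theorem measurable_inf : MeasurableSet {ω : List ℕ → EB | {u | OO ω u}.Infinite} := by
  have : {ω : List ℕ → EB | {u | OO ω u}.Infinite} = ⋂ n, LV n := by
    ext ω
    rw [Set.mem_iInter]
    exact infinite_iff ω
  rw [this]
  exact MeasurableSet.iInter fun n => (measurable_LV_DV n).1

theorem measurable_BI (Z : Env) : MeasurableSet (BI Z) := by
  have h1 : Measurable fun c : List ℕ → Bool => (zip (Z, c) : List ℕ → EB) :=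
    measurable_zip.comp measurable_prodMk_left
  exact h1 measurable_inf

theorem measurable_EI (Z : Env) : MeasurableSet (EI Z) := by
  have h1 : Measurable fun c : List ℕ → Bool => c [] := measurable_pi_apply _
  exact (h1 (measurableSet_singleton true)).inter (measurable_BI Z)

theorem gq_def (Z : Env) (p : unitInterval) : gq Z p = bern p (BI Z) := rfl

theorem measurable_gq (p : unitInterval) : Measurable fun Z : Env => gq Z p := by
  have h1 : MeasurableSet ((zip : (List ℕ → ℕ) × (List ℕ → Bool) → List ℕ → EB) ⁻¹'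
      {ω : List ℕ → EB | {u | OO ω u}.Infinite}) := measurable_zip measurable_inf
  exact measurable_measure_prodMk_left (ν := bern p) h1

theorem OpenTo_append (Z : Env) (c : List ℕ → Bool) (i : ℕ) (v : List ℕ) :
    OpenTo Z c (v ++ [i]) ↔
      (i < Z [] ∧ c [i] = true) ∧ OpenTo (shift [i] Z) (shift [i] c) v :=
  OO_append (zip (Z, c)) i v

theorem mem_BI (Z : Env) (c : List ℕ → Bool) :
    c ∈ BI Z ↔ ∃ i < Z [], shift [i] c ∈ EI (shift [i] Z) := by
  constructor
  · intro h
    by_contra hcon
    push Not at hcon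
    apply h
    have h1 : {u | OpenTo Z c u} ⊆ {([] : List ℕ)} ∪
        ⋃ i ∈ {i | i < Z [] ∧ c [i] = true},
          (fun v => v ++ [i]) '' {v | OpenTo (shift [i] Z) (shift [i] c) v} := by
      intro u hu
      rcases List.eq_nil_or_concat u with h0 | ⟨v, i, rfl⟩
      · left; exact h0
      · right
        rw [List.concat_eq_append] at hu ⊢
        obtain ⟨h2, h3⟩ := (OpenTo_append Z c i v).1 hu
        exact Set.mem_biUnion (x := i) h2 ⟨v, h3, rfl⟩
    refine Set.Finite.subset ?_ h1
    refine (Set.finite_singleton _).union ?_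
    refine Set.Finite.biUnion ((Set.finite_Iio (Z [])).subset fun i hi => hi.1) fun i hi => ?_
    refine Set.Finite.image _ ?_
    by_contra hinf
    exact hcon i hi.1 ⟨hi.2, hinf⟩
  · rintro ⟨i, hi, h1, h2⟩
    have h3 : Set.Infinite ((fun v => v ++ [i]) ''
        {v | OpenTo (shift [i] Z) (shift [i] c) v}) := by
      refine Set.Infinite.image ?_ h2
      intro a _ b _ hab
      exact List.append_cancel_right hab
    refine h3.mono ?_
    rintro _ ⟨v, hv, rfl⟩
    exact (OpenTo_append Z c i v).2 ⟨⟨hi, h1⟩, hv⟩

theorem bern_EI (Z : Env) (p : unitInterval) :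
    bern p (EI Z) = ENNReal.ofReal p * gq Z p := by
  set b := bernoulliMeasure true false p with hb
  set Q : Set (ℕ → (List ℕ → Bool)) := ⋃ i ∈ Finset.range (Z []),
    (fun y : ℕ → (List ℕ → Bool) => y i) ⁻¹' EI (shift [i] Z) with hQ
  have hQm : MeasurableSet Q := by
    refine Finset.measurableSet_biUnion _ fun i _ => ?_
    exact (measurable_pi_apply i) (measurable_EI _)
  have hmem : ∀ c : List ℕ → Bool, c ∈ BI Z ↔ (fun i : ℕ => shift [i] c) ∈ Q := by
    intro c
    rw [mem_BI, hQ, Set.mem_iUnion₂]
    constructor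
    · rintro ⟨i, hi, h⟩
      exact ⟨i, Finset.mem_range.2 hi, h⟩
    · rintro ⟨i, hi, h⟩
      exact ⟨i, Finset.mem_range.1 hi, h⟩
  have h1 := (mp_root b).measure_preimage
    ((measurableSet_singleton true).prod hQm).nullMeasurableSet
  have h2 := (mp_root b).measure_preimage
    (MeasurableSet.univ.prod hQm).nullMeasurableSet
  have e1 : (fun ω : List ℕ → Bool => (ω [], fun i : ℕ => shift [i] ω)) ⁻¹'
      (({true} : Set Bool) ×ˢ Q) = EI Z := by
    ext c
    constructor
    · rintro ⟨h3, h4⟩
      exact ⟨h3, (hmem c).2 h4⟩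
    · rintro ⟨h3, h4⟩
      exact ⟨h3, (hmem c).1 h4⟩
  have e2 : (fun ω : List ℕ → Bool => (ω [], fun i : ℕ => shift [i] ω)) ⁻¹'
      ((Set.univ : Set Bool) ×ˢ Q) = BI Z := by
    ext c
    constructor
    · rintro ⟨h3, h4⟩
      exact (hmem c).2 h4
    · intro h4
      exact ⟨trivial, (hmem c).1 h4⟩
  rw [e1, Measure.prod_prod] at h1
  rw [e2, Measure.prod_prod, measure_univ, one_mul] at h2
  rw [gq_def]
  have h3 : bern p (EI Z) = b {true} * bern p (BI Z) := by
    show PW b (EI Z) = b {true} * PW b (BI Z)
    rw [h1, h2]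
  rw [h3, bern_true]

theorem bern_shift_EI (Z : Env) (p : unitInterval) (u : List ℕ) :
    bern p {c | shift u c ∈ EI Z} = ENNReal.ofReal p * gq Z p := by
  rw [← bern_EI]
  exact (shift_preserving (bernoulliMeasure true false p) u).measure_preimage
    (measurable_EI Z).nullMeasurableSet

/-- upper bound -/
theorem gq_le (Z : Env) (p : unitInterval) :
    gq Z p ≤ ENNReal.ofReal p * ∑ i ∈ Finset.range (Z []), gq (shift [i] Z) p := by
  have h1 : BI Z ⊆ ⋃ i ∈ Finset.range (Z []), {c | shift [i] c ∈ EI (shift [i] Z)} := by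
    intro c hc
    obtain ⟨i, hi, h⟩ := (mem_BI Z c).1 hc
    exact Set.mem_biUnion (x := i) (Finset.mem_coe.2 (Finset.mem_range.2 hi)) h
  rw [gq_def]
  refine (measure_mono h1).trans ((measure_biUnion_finset_le _ _).trans ?_)
  rw [Finset.mul_sum]
  refine Finset.sum_le_sum fun i _ => ?_
  rw [bern_shift_EI]

/-- splitting off the first two children -/
theorem mp_pair {E : Type*} [MeasurableSpace E] (m : Measure E) [IsProbabilityMeasure m] :
    MeasurePreserving (fun ω : List ℕ → E => (shift [0] ω, shift [1] ω)) (PW m)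
      ((PW m).prod (PW m)) := by
  have h1 := mp_split2 m (κ₁ := List ℕ) (κ₂ := List ℕ) (ι := List ℕ)
    (fun o => Sum.elim (fun v => v ++ [0]) (fun v => v ++ [1]) o) (by
      rintro (a | a) (b | b) h
      · exact congrArg Sum.inl (List.append_cancel_right h)
      · exfalso
        simp only [Sum.elim_inl, Sum.elim_inr] at h
        have := (List.append_inj' h rfl).2
        simp at this
      · exfalso
        simp only [Sum.elim_inl, Sum.elim_inr] at h
        have := (List.append_inj' h rfl).2
        simp at this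
      · exact congrArg Sum.inr (List.append_cancel_right h))
  exact h1

theorem gq_le_one (Z : Env) (p : unitInterval) : gq Z p ≤ 1 := prob_le_one

theorem gq_ne_top (Z : Env) (p : unitInterval) : gq Z p ≠ ⊤ := measure_ne_top _ _

/-- the real valued quenched survival function on the unit interval -/
noncomputable def gx (p : unitInterval) (Z : Env) : ℝ := (gq Z p).toReal

theorem gx_nonneg (p : unitInterval) (Z : Env) : 0 ≤ gx p Z := ENNReal.toReal_nonneg

theorem gx_le_one (p : unitInterval) (Z : Env) : gx p Z ≤ 1 := by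
  unfold gx
  exact ENNReal.toReal_le_of_le_ofReal zero_le_one (by rw [ENNReal.ofReal_one]; exact gq_le_one Z p)

theorem measurable_gx (p : unitInterval) : Measurable (gx p) :=
  (measurable_gq p).ennreal_toReal

/-- lower bound from two children -/
theorem gx_ge (Z : Env) (p : unitInterval) (hZ : 2 ≤ Z []) :
    1 - (1 - p * gx p (shift [0] Z)) * (1 - p * gx p (shift [1] Z)) ≤ gx p Z := by
  set b := bernoulliMeasure true false p with hb
  have h1 : {c : List ℕ → Bool | shift [0] c ∈ EI (shift [0] Z)} ∪
      {c | shift [1] c ∈ EI (shift [1] Z)} ⊆ BI Z := by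
    rintro c (h | h)
    · exact (mem_BI Z c).2 ⟨0, by omega, h⟩
    · exact (mem_BI Z c).2 ⟨1, by omega, h⟩
  have h2 : (BI Z)ᶜ ⊆ (fun ω : List ℕ → Bool => (shift [0] ω, shift [1] ω)) ⁻¹'
      ((EI (shift [0] Z))ᶜ ×ˢ (EI (shift [1] Z))ᶜ) := by
    intro c hc
    exact ⟨fun h => hc (h1 (Or.inl h)), fun h => hc (h1 (Or.inr h))⟩
  have h3 := (mp_pair b).measure_preimage
    ((measurable_EI (shift [0] Z)).compl.prod (measurable_EI (shift [1] Z)).compl).nullMeasurableSet
  rw [Measure.prod_prod] at h3
  have h4 : bern p (BI Z)ᶜ ≤ bern p (EI (shift [0] Z))ᶜ * bern p (EI (shift [1] Z))ᶜ := by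
    refine (measure_mono h2).trans (le_of_eq ?_)
    exact h3
  have h5 : ∀ Z' : Env, (bern p (EI Z')).toReal = p * gx p Z' := by
    intro Z'
    rw [bern_EI, ENNReal.toReal_mul, ENNReal.toReal_ofReal p.2.1]
    rfl
  have h6 : ∀ Z' : Env, (bern p (EI Z')ᶜ).toReal = 1 - p * gx p Z' := by
    intro Z'
    have := prob_compl_eq_one_sub (μ := bern p) (measurable_EI Z')
    rw [this, ENNReal.toReal_sub_of_le prob_le_one ENNReal.one_ne_top, ENNReal.toReal_one, h5]
  have h7 : (bern p (BI Z)ᶜ).toReal = 1 - gx p Z := by
    have := prob_compl_eq_one_sub (μ := bern p) (measurable_BI Z)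
    rw [this, ENNReal.toReal_sub_of_le prob_le_one ENNReal.one_ne_top, ENNReal.toReal_one]
    rfl
  have h8 := ENNReal.toReal_mono (ENNReal.mul_ne_top (measure_ne_top _ _) (measure_ne_top _ _)) h4
  rw [ENNReal.toReal_mul, h6, h6, h7] at h8
  linarith

/-- monotonicity in the parameter -/
theorem gq_mono (Z : Env) {p q : unitInterval} (hpq : p ≤ q) : gq Z p ≤ gq Z q := by
  rcases eq_or_lt_of_le q.2.1 with h0 | h0
  · have : p = q := le_antisymm hpq (by
      show (q : ℝ) ≤ p
      rw [← h0]; exact p.2.1)
    rw [this]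
  set r : unitInterval := ⟨p / q, div_nonneg p.2.1 q.2.1, div_le_one_of_le₀ hpq q.2.1⟩ with hr
  have hprod : (q : ℝ) * r = p := by
    show (q : ℝ) * (p / q) = p
    field_simp
  -- the one-edge coupling
  have h1 : Measure.map (fun x : Bool × Bool => x.1 && x.2)
      ((bernoulliMeasure true false q).prod (bernoulliMeasure true false r)) =
      bernoulliMeasure true false p := by
    have hm : Measurable (fun x : Bool × Bool => x.1 && x.2) := Measurable.of_discrete
    have : IsProbabilityMeasure (Measure.map (fun x : Bool × Bool => x.1 && x.2)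
      ((bernoulliMeasure true false q).prod (bernoulliMeasure true false r))) :=
      Measure.isProbabilityMeasure_map hm.aemeasurable
    have htrue : Measure.map (fun x : Bool × Bool => x.1 && x.2)
      ((bernoulliMeasure true false q).prod (bernoulliMeasure true false r)) {true} =
      bernoulliMeasure true false p {true} := by
      rw [Measure.map_apply hm (measurableSet_singleton _)]
      have e : (fun x : Bool × Bool => x.1 && x.2) ⁻¹' {true} = ({true} : Set Bool) ×ˢ {true} := by
        ext x
        simp only [Set.mem_preimage, Set.mem_singleton_iff, Bool.and_eq_true, Set.mem_prod]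
      rw [e, Measure.prod_prod, bern_true, bern_true, bern_true, ← ENNReal.ofReal_mul q.2.1, hprod]
    refine Measure.ext_of_singleton fun x => ?_
    cases x
    · have hc : ({false} : Set Bool) = {true}ᶜ := by ext x; simp
      rw [hc, prob_compl_eq_one_sub (measurableSet_singleton _),
        prob_compl_eq_one_sub (measurableSet_singleton _), htrue]
    · exact htrue
  have h2 : Measure.map (fun z : (List ℕ → Bool) × (List ℕ → Bool) => fun v => z.1 v && z.2 v)
      ((bern q).prod (bern r)) = bern p := by
    have e : (fun z : (List ℕ → Bool) × (List ℕ → Bool) => fun v => z.1 v && z.2 v) =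
        (fun (y : List ℕ → Bool × Bool) v => (y v).1 && (y v).2) ∘ zip := rfl
    have hm : Measurable (fun (y : List ℕ → Bool × Bool) v => (y v).1 && (y v).2) := by
      refine measurable_pi_lambda _ fun v => ?_
      have : Measurable (fun x : Bool × Bool => x.1 && x.2) := Measurable.of_discrete
      exact this.comp (measurable_pi_apply v)
    rw [e, ← Measure.map_map hm measurable_zip]
    unfold bern
    rw [map_zip]
    have h5 := Measure.infinitePi_map_pi (fun _ : List ℕ =>
      (bernoulliMeasure true false q).prod (bernoulliMeasure true false r))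
      (f := fun _ (x : Bool × Bool) => x.1 && x.2) (fun _ => Measurable.of_discrete)
    rw [h5]
    congr 1
    funext v
    exact h1
  have hm2 : Measurable (fun z : (List ℕ → Bool) × (List ℕ → Bool) => fun v => z.1 v && z.2 v) := by
    refine measurable_pi_lambda _ fun v => ?_
    have h3 : Measurable (fun x : Bool × Bool => x.1 && x.2) := Measurable.of_discrete
    have h4 : Measurable fun z : (List ℕ → Bool) × (List ℕ → Bool) => (z.1 v, z.2 v) := by
      fun_prop
    exact h3.comp h4
  rw [gq_def, gq_def, ← h2, Measure.map_apply hm2 (measurable_BI Z)]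
  have h3 : (fun z : (List ℕ → Bool) × (List ℕ → Bool) => fun v => z.1 v && z.2 v) ⁻¹' BI Z ⊆
      BI Z ×ˢ Set.univ := by
    rintro ⟨c, d⟩ h
    refine ⟨?_, trivial⟩
    refine Set.Infinite.mono ?_ h
    intro u hu
    show OpenTo Z c u
    induction u with
    | nil => trivial
    | cons i u ih =>
      refine ⟨ih hu.1, hu.2.1, ?_⟩
      have := hu.2.2
      simp only [Bool.and_eq_true] at this
      exact this.1
  refine (measure_mono h3).trans ?_
  rw [Measure.prod_prod, measure_univ, mul_one]

theorem gr_mono (Z : Env) : Monotone (gr Z) := by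
  intro p q hpq
  unfold gr
  exact ENNReal.toReal_mono (gq_ne_top _ _) (gq_mono Z (Set.monotone_projIcc _ hpq))

theorem gr_eq (Z : Env) (p : unitInterval) : gr Z p = gx p Z := by
  unfold gr gx
  rw [Set.projIcc_val]

theorem gr_nonneg (Z : Env) (p : ℝ) : 0 ≤ gr Z p := ENNReal.toReal_nonneg

theorem lintegral_gq (ν : PMF ℕ) (p : unitInterval) :
    ∫⁻ Z, gq Z p ∂GW ν = ENNReal.ofReal (ga ν p) := by
  unfold ga
  rw [Set.projIcc_val, ENNReal.ofReal_toReal]
  refine ne_top_of_le_ne_top ENNReal.one_ne_top ?_
  calc ∫⁻ Z, gq Z p ∂GW ν ≤ ∫⁻ _, 1 ∂GW ν := lintegral_mono fun Z => gq_le_one Z p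
    _ = 1 := by simp

end Pool.Agent.H99.GQ
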