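import Pool.Agent.H99.GQ.Mom
import Pool.Agent.H99.GQ.Law

set_option autoImplicit false

/-!
# One scale
-/

namespace Pool.Agent.H99.GQ

open MeasureTheory ProbabilityTheory Filter Topology

/-- the real scale -/
noncomputable def NN (j : ℕ) : ℝ := xx j

theorem NN_pos (j : ℕ) : 0 < NN j := xx_pos j

theorem NN_two (j : ℕ) : 2 ≤ NN j := by
  unfold NN; exact_mod_cast two_le_xx j

theorem NN_pow (j : ℕ) : (2 : ℝ) ^ (32 ^ j) = NN j := by
  unfold NN xx; push_cast; rfl

theorem NN_large {j : ℕ} (hj : 3 ≤ j) : 10 ^ 6 ≤ NN j := by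
  unfold NN
  have h1 : xx 1 ≤ xx j := xx_mono (by omega)
  rw [xx_one] at h1
  have h2 : (10 : ℕ) ^ 6 ≤ xx j := le_trans (by norm_num) h1
  exact_mod_cast h2

theorem ww_le {j : ℕ} (hj : 3 ≤ j) : ww j ≤ 1 / 8 := by
  unfold ww
  calc ((1 : ℝ) / 2) ^ j ≤ (1 / 2) ^ 3 := pow_le_pow_of_le_one (by norm_num) (by norm_num) hj
    _ = 1 / 8 := by norm_num

theorem ww_le_one (j : ℕ) : ww j ≤ 1 := by
  unfold ww
  exact pow_le_one₀ (by norm_num) (by norm_num)

theorem one_le_ww_NN (j : ℕ) : 1 ≤ ww j * NN j := by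
  have h1 : (2 : ℝ) ^ j ≤ NN j := by
    rw [← NN_pow]
    refine pow_le_pow_right₀ (by norm_num) ?_
    exact (Nat.lt_pow_self (by norm_num : 1 < 32)).le
  have h2 : ww j * 2 ^ j = 1 := by
    unfold ww; rw [← mul_pow]; norm_num
  rw [← h2]
  exact mul_le_mul_of_nonneg_left h1 (ww_pos j).le

/-- the upper parameter of the survival probability -/
noncomputable def sp (j : ℕ) : ℝ := 1 / NN j ^ 12

/-- the lower one -/
noncomputable def sm (j : ℕ) : ℝ := 1 / NN j ^ 21

theorem sp_pos (j : ℕ) : 0 < sp j := by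
  unfold sp; have := NN_pos j; positivity

theorem sm_pos (j : ℕ) : 0 < sm j := by
  unfold sm; have := NN_pos j; positivity

theorem sm_lt_sp {j : ℕ} : sm j < sp j := by
  unfold sp sm
  have h := NN_two j
  have h0 := NN_pos j
  refine one_div_lt_one_div_of_lt (by positivity) ?_
  exact pow_lt_pow_right₀ (by linarith) (by norm_num)

theorem sp_NN (j : ℕ) : sp j * NN j = 1 / NN j ^ 11 := by
  unfold sp
  have := NN_pos j
  field_simp

theorem inv_pow_le {j : ℕ} (hj : 3 ≤ j) {n : ℕ} (hn : 1 ≤ n) : 1 / NN j ^ n ≤ 1 / 10 ^ 6 := by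
  have h := NN_large hj
  refine one_div_le_one_div_of_le (by norm_num) (h.trans ?_)
  calc NN j = NN j ^ 1 := (pow_one _).symm
    _ ≤ NN j ^ n := pow_le_pow_right₀ (by linarith [NN_two j]) hn

theorem GG_near {j : ℕ} (hj : 3 ≤ j) {s : ℝ} (h0 : 0 ≤ s) (h1 : s ≤ sp j) :
    mm - GG s ≤ 1 / 4 ∧ mm - GG s ≤ 4 * (1 / NN j ^ 11) + ww j := by
  have h2 : sp j ≤ 1 / 10 ^ 6 := inv_pow_le hj (by norm_num)
  have h3 := GG_upper_zero h0 (by linarith) j
  have h4 : s * NN j ≤ 1 / NN j ^ 11 := by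
    rw [← sp_NN]
    exact mul_le_mul_of_nonneg_right h1 (NN_pos j).le
  have h5 : 1 / NN j ^ 11 ≤ 1 / 10 ^ 6 := inv_pow_le hj (by norm_num)
  have h6 := ww_le hj
  have h7 := ww_pos j
  have h8 : 2 * (ww j * xx j) * s ≤ 2 * (1 / NN j ^ 11) := by
    have : 2 * (ww j * xx j) * s = 2 * (ww j * (s * NN j)) := by unfold NN; ring
    rw [this]
    have h9 : ww j * (s * NN j) ≤ 1 * (1 / NN j ^ 11) := by
      refine mul_le_mul (by linarith) h4 (mul_nonneg h0 (NN_pos j).le) (by norm_num)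
    linarith
  have h9 : s ≤ 1 / NN j ^ 11 := by
    refine le_trans ?_ h4
    have := NN_two j
    nlinarith
  have h10 : (0 : ℝ) < 1 / NN j ^ 11 := by have := NN_pos j; positivity
  constructor
  · linarith
  · linarith

theorem HH_bounds {j : ℕ} (hj : 3 ≤ j) {s : ℝ} (h0 : 0 < s) (h1 : s ≤ sp j) :
    1 / 3 ≤ HH s ∧ HH s ≤ 1 / 2 ∧ HH s ^ 2 * mm ≤ 1 / 2 ∧ 2 * s ≤ ga lac (HH s) ∧
      ga lac (HH s) ≤ 3 * s := by
  have h2 := (GG_near hj h0.le h1).1
  have h3 : sp j ≤ 1 / 10 ^ 6 := inv_pow_le hj (by norm_num)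
  have h4 := mm_lower
  have h5 := mm_upper
  have h6 := GG_le_mm h0.le (by linarith : s ≤ 1)
  have h7 : 0 < GG s := by linarith
  have h8 := curve h0 (by linarith) (by linarith)
  have h9 : ga lac (HH s) = s * GG s := by
    have h10 : HH s * GG s = 1 := by unfold HH; field_simp
    calc ga lac (HH s) = (HH s * GG s) * ga lac (HH s) := by rw [h10, one_mul]
      _ = GG s * (HH s * ga lac (HH s)) := by ring
      _ = s * GG s := by rw [h8]; ring
  refine ⟨?_, ?_, ?_, ?_, ?_⟩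
  · unfold HH
    exact one_div_le_one_div_of_le h7 (by linarith)
  · unfold HH
    exact one_div_le_one_div_of_le (by norm_num) (by linarith)
  · unfold HH
    rw [div_pow, one_pow, one_div_mul_eq_div, div_le_iff₀ (by positivity)]
    nlinarith
  · rw [h9]; nlinarith
  · rw [h9]; nlinarith

/-- the truncated second moment of the law -/
theorem lac_V (j : ℕ) : ∑' k, lac k * (if k ≤ xx j then (k : ENNReal) ^ 2 else 0) ≤
    ENNReal.ofReal (2 + 2 * NN j) := by
  rw [lac_sum]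
  have h1 : ENNReal.ofReal (1 - qq) * (if 2 ≤ xx j then ((2 : ℕ) : ENNReal) ^ 2 else 0) ≤
      ENNReal.ofReal 2 := by
    rw [if_pos (two_le_xx j)]
    have e : ((2 : ℕ) : ENNReal) ^ 2 = ENNReal.ofReal 4 := by
      rw [Nat.cast_ofNat, show (4 : ℝ) = 2 ^ 2 by norm_num, ENNReal.ofReal_pow (by norm_num)]
      simp
    rw [e, ← ENNReal.ofReal_mul (by linarith [qq_upper])]
    refine ENNReal.ofReal_le_ofReal ?_
    linarith [qq_lower]
  have h2 : ∑' l, cc l * (if xx l ≤ xx j then ((xx l : ℕ) : ENNReal) ^ 2 else 0) ≤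
      ENNReal.ofReal (2 * NN j) := by
    rw [tsum_eq_sum (s := Finset.range (j + 1))]
    · have h3 : ∀ l ∈ Finset.range (j + 1),
          cc l * (if xx l ≤ xx j then ((xx l : ℕ) : ENNReal) ^ 2 else 0) ≤
          ENNReal.ofReal (ww l * xx l) := by
        intro l hl
        rw [if_pos (xx_mono (by have := Finset.mem_range.1 hl; omega))]
        unfold cc
        rw [← ENNReal.ofReal_natCast, ← ENNReal.ofReal_pow (xx_pos l).le,
          ← ENNReal.ofReal_mul (div_nonneg (ww_pos l).le (xx_pos l).le)]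
        refine ENNReal.ofReal_le_ofReal (le_of_eq ?_)
        have := (xx_pos l).ne'
        field_simp
      refine (Finset.sum_le_sum h3).trans ?_
      rw [← ENNReal.ofReal_sum_of_nonneg fun l _ => mul_nonneg (ww_pos l).le (xx_pos l).le]
      refine ENNReal.ofReal_le_ofReal ((sum_head j).trans ?_)
      have h4 := ww_le_one j
      have h5 := xx_pos j
      unfold NN
      nlinarith
    · intro l hl
      rw [Finset.mem_range, not_lt] at hl
      rw [if_neg, mul_zero]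
      rw [not_le]
      have h3 : xx (j + 1) ≤ xx l := xx_mono hl
      refine lt_of_lt_of_le ?_ h3
      rw [xx_succ]
      calc xx j = xx j ^ 1 := (pow_one _).symm
        _ < xx j ^ 32 := Nat.pow_lt_pow_right (by have := two_le_xx j; omega) (by norm_num)
  refine (add_le_add h1 h2).trans ?_
  rw [← ENNReal.ofReal_add (by norm_num) (by have := NN_pos j; positivity)]

theorem lac_tail (j : ℕ) : ∑' k, lac k * (if k ≤ xx j then 0 else 1) ≤
    ENNReal.ofReal (2 / NN j ^ 32) := by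
  rw [lac_sum, if_pos (two_le_xx j), mul_zero, zero_add]
  have h1 : ∀ l, cc l * (if xx l ≤ xx j then 0 else 1) ≤
      ENNReal.ofReal (ww l * (1 / NN j ^ 32)) := by
    intro l
    split_ifs with h
    · rw [mul_zero]; exact zero_le
    · rw [mul_one]
      unfold cc
      refine ENNReal.ofReal_le_ofReal ?_
      rw [div_eq_mul_one_div]
      refine mul_le_mul_of_nonneg_left ?_ (ww_pos l).le
      refine one_div_le_one_div_of_le (by have := NN_pos j; positivity) ?_
      have h2 : j + 1 ≤ l := by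
        by_contra hcon
        exact h (xx_mono (by omega))
      have h3 : xx j ^ 32 ≤ xx l := by rw [← xx_succ]; exact xx_mono h2
      unfold NN
      exact_mod_cast h3
  refine (ENNReal.tsum_le_tsum h1).trans ?_
  have h0 : 0 ≤ 1 / NN j ^ 32 := by have := NN_pos j; positivity
  rw [← ENNReal.ofReal_tsum_of_nonneg (fun l => mul_nonneg (ww_pos l).le h0)
    (hasSum_ww.summable.mul_right _), tsum_mul_right, hasSum_ww.tsum_eq]
  refine ENNReal.ofReal_le_ofReal (le_of_eq ?_)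
  ring

/-- the parameter as an element of the unit interval -/
theorem HH_mem {j : ℕ} (hj : 3 ≤ j) {s : ℝ} (h0 : 0 < s) (h1 : s ≤ sp j) :
    HH s ∈ Set.Icc (0 : ℝ) 1 := by
  obtain ⟨h2, h3, -⟩ := HH_bounds hj h0 h1
  exact ⟨by linarith, by linarith⟩

/-- second moment of the quenched survival function at the upper parameter -/
theorem second_bound {j : ℕ} (hj : 3 ≤ j) (p : unitInterval) (hp : (p : ℝ) = HH (sp j)) :
    ∫ Z, gx p Z ^ 2 ∂GW lac ≤ 2 * NN j * ga lac p ^ 2 := by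
  obtain ⟨h1, h2, h3, h4, h5⟩ := HH_bounds hj (sp_pos j) le_rfl
  rw [← hp] at h1 h2 h3 h4 h5
  have hN := NN_large hj
  have hN0 := NN_pos j
  set a := ga lac p with ha
  set b := ∫ Z, gx p Z ^ 2 ∂GW lac with hb
  have hb0 : 0 ≤ b := integral_nonneg fun Z => sq_nonneg _
  have ha0 : 0 ≤ a := ga_nonneg lac p
  have h6 := second_moment lac p (xx j)
  rw [← integral_gx_sq, lintegral_gq, lac_mean] at h6
  rw [← ha, ← hb] at h6
  have hm := mm_lower
  have h7 : ENNReal.ofReal b ≤ ENNReal.ofReal ((p : ℝ) ^ 2 * (mm * b + (2 + 2 * NN j) * a ^ 2) +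
      2 / NN j ^ 32) := by
    refine h6.trans ?_
    rw [ENNReal.ofReal_add (by positivity) (by positivity),
      ENNReal.ofReal_mul (by positivity), ENNReal.ofReal_add (by positivity) (by positivity),
      ENNReal.ofReal_mul (by positivity), ENNReal.ofReal_mul (by positivity),
      ENNReal.ofReal_pow p.2.1, ENNReal.ofReal_pow ha0]
    have h8 := lac_V j
    have h9 := lac_tail j
    gcongr
  rw [ENNReal.ofReal_le_ofReal_iff (by positivity)] at h7
  have h8 : (p : ℝ) ^ 2 ≤ 1 / 4 := by nlinarith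
  have h9 : b ≤ (1 / 2) * b + (1 / 4) * ((2 + 2 * NN j) * a ^ 2) + 2 / NN j ^ 32 := by
    have e : (p : ℝ) ^ 2 * (mm * b + (2 + 2 * NN j) * a ^ 2) =
        ((p : ℝ) ^ 2 * mm) * b + (p : ℝ) ^ 2 * ((2 + 2 * NN j) * a ^ 2) := by ring
    rw [e] at h7
    have h10 : ((p : ℝ) ^ 2 * mm) * b ≤ (1 / 2) * b := mul_le_mul_of_nonneg_right h3 hb0
    have h11 : (p : ℝ) ^ 2 * ((2 + 2 * NN j) * a ^ 2) ≤ (1 / 4) * ((2 + 2 * NN j) * a ^ 2) :=
      mul_le_mul_of_nonneg_right h8 (by positivity)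
    linarith
  have h10 : 2 / NN j ^ 32 ≤ a ^ 2 := by
    have h11 : (2 * sp j) ^ 2 ≤ a ^ 2 :=
      pow_le_pow_left₀ (by have := sp_pos j; positivity) h4 2
    refine le_trans ?_ h11
    unfold sp
    rw [mul_pow, div_pow, one_pow, ← pow_mul, ← mul_div_assoc, mul_one]
    rw [div_le_div_iff₀ (by positivity) (by positivity)]
    have h12 : NN j ^ (12 * 2) ≤ NN j ^ 32 :=
      pow_le_pow_right₀ (by linarith) (by norm_num)
    have h13 : (0 : ℝ) < NN j ^ 32 := by positivity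
    linarith
  have h11 : (2 + 2 * NN j) * a ^ 2 ≤ (3 * NN j) * a ^ 2 := by
    gcongr
    linarith
  have h12 : 0 ≤ a ^ 2 := sq_nonneg a
  nlinarith

/-- the depth -/
def rr (j : ℕ) : ℕ := 2 * 32 ^ j

theorem two_pow_rr (j : ℕ) : (2 : ℝ) ^ rr j = NN j ^ 2 := by
  unfold rr
  rw [mul_comm, pow_mul, NN_pow]

theorem rr_le {j : ℕ} (hj : 3 ≤ j) : (rr j : ℝ) ≤ NN j := by
  unfold rr NN xx
  have h : 2 * 32 ^ j ≤ 2 ^ 32 ^ j := by
    have h1 : 3 ≤ 32 ^ j := by
      calc 3 ≤ 32 ^ 1 := by norm_num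
        _ ≤ 32 ^ j := Nat.pow_le_pow_right (by norm_num) (by omega)
    have h2 : ∀ n : ℕ, 3 ≤ n → 2 * n ≤ 2 ^ n := by
      intro n hn
      induction n, hn using Nat.le_induction with
      | base => norm_num
      | succ n hn ih => rw [pow_succ]; omega
    exact h2 _ h1
  exact_mod_cast h

/-- the quenched lower bound at a scale, on the good event -/
theorem lower_of_good {j : ℕ} (hj : 3 ≤ j) (p : unitInterval) (hp : (p : ℝ) = HH (sp j))
    {Z : Env} (hZ : ∀ u, 2 ≤ Z u)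
    (h1 : 2 ^ rr j * ga lac p / 2 < SS p (rr j) Z)
    (h2 : SS p (rr j) Z < NN j * (2 ^ rr j * ga lac p)) :
    1 / (2 * NN j ^ 14) ≤ gx p Z := by
  obtain ⟨h3, h4, h5, h6, h7⟩ := HH_bounds hj (sp_pos j) le_rfl
  rw [← hp] at h3 h4 h5 h6 h7
  have hN := NN_large hj
  have hN0 := NN_pos j
  have h8 := gx_lower p h4 (rr j) Z hZ
  rw [two_pow_rr] at h1 h2
  set a := ga lac p with ha
  set S := SS p (rr j) Z with hS
  have ha0 : 0 < a := by have := sp_pos j; linarith
  have hS0 : 0 ≤ S := SS_nonneg _ _ _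
  have h9 : 1 / NN j ^ 4 ≤ (p : ℝ) ^ rr j := by
    have h10 : ((1 : ℝ) / 4) ^ rr j ≤ (p : ℝ) ^ rr j :=
      pow_le_pow_left₀ (by norm_num) (by linarith) _
    refine le_trans (le_of_eq ?_) h10
    rw [show ((1 : ℝ) / 4) = (1 / 2) ^ 2 by norm_num, ← pow_mul, mul_comm, pow_mul]
    rw [div_pow, one_pow, two_pow_rr, div_pow, one_pow, ← pow_mul]
  have h10 : 1 / NN j ^ 14 ≤ (p : ℝ) ^ rr j * S := by
    have h11 : NN j ^ 2 * (2 * sp j) / 2 ≤ S := by
      refine le_trans ?_ h1.le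
      gcongr
    calc 1 / NN j ^ 14 = 1 / NN j ^ 4 * (NN j ^ 2 * (2 * sp j) / 2) := by
          unfold sp; field_simp
      _ ≤ (p : ℝ) ^ rr j * S := by
          refine mul_le_mul h9 h11 ?_ (by positivity)
          have := sp_pos j; positivity
  have h11 : (rr j : ℝ) * S ^ 2 ≤ 9 / NN j ^ 17 := by
    have h12 : S ≤ NN j * (NN j ^ 2 * (3 * sp j)) := by
      refine h2.le.trans ?_
      gcongr
    have h13 : S ^ 2 ≤ (NN j * (NN j ^ 2 * (3 * sp j))) ^ 2 := pow_le_pow_left₀ hS0 h12 2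
    calc (rr j : ℝ) * S ^ 2 ≤ NN j * (NN j * (NN j ^ 2 * (3 * sp j))) ^ 2 :=
          mul_le_mul (rr_le hj) h13 (sq_nonneg _) hN0.le
      _ = 9 / NN j ^ 17 := by
          unfold sp; field_simp; norm_num
  have h12 : 9 / NN j ^ 17 ≤ 1 / (2 * NN j ^ 14) := by
    rw [div_le_div_iff₀ (by positivity) (by positivity)]
    have e : NN j ^ 17 = NN j ^ 14 * (NN j * NN j ^ 2) := by ring
    have h13 : (1 : ℝ) ≤ NN j ^ 2 := one_le_pow₀ (by linarith)
    have h14 : 18 ≤ NN j * NN j ^ 2 := by nlinarith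
    have h15 : (0 : ℝ) < NN j ^ 14 := by positivity
    rw [e]
    nlinarith
  have h13 : 1 / NN j ^ 14 = 1 / (2 * NN j ^ 14) + 1 / (2 * NN j ^ 14) := by
    field_simp; norm_num
  linarith

end Pool.Agent.H99.GQ
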